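import Pool.Agent.TH396.IN.Defs

/-! The one-dimensional case. -/

set_option autoImplicit false

namespace Pool.Agent.TH396.IN

open Polynomial in
/-- a nonzero Laurent polynomial in one variable with exponents in an interval of length less than
the sum of the multiplicities at distinct points vanishes -/
theorem base_aux {K ι : Type} [Field K] [Fintype ι] (x : ι → K) (hx : Function.Injective x)
    (w : ι → ℕ) (g : K[X]) (hg : ∀ i, (X - C (x i)) ^ w i ∣ g)
    (hdeg : g.natDegree < ∑ i, w i) : g = 0 := by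
  classical
  by_contra hne
  have h1 : ∏ i, (X - C (x i)) ^ w i ∣ g := by
    apply Finset.prod_dvd_of_coprime
    · intro i _ j _ hij
      apply IsCoprime.pow
      exact isCoprime_X_sub_C_of_isUnit_sub
        (IsUnit.mk0 _ (sub_ne_zero.2 fun h => hij (hx h)))
    · intro i _
      exact hg i
  have h2 := natDegree_le_of_dvd h1 hne
  rw [natDegree_prod_of_monic _ _ (fun i _ => (monic_X_sub_C (x i)).pow _)] at h2
  have h3 : ∑ i, ((X - C (x i)) ^ w i).natDegree = ∑ i, w i := by
    apply Finset.sum_congr rfl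
    intro i _
    rw [natDegree_pow, natDegree_X_sub_C, mul_one]
  omega

/-- the character of a nonzero element -/
noncomputable def chr1 {K : Type} [Field K] (x : K) (hx : x ≠ 0) :
    Multiplicative (ℤ × Unit) →* K where
  toFun m := x ^ m.toAdd.1
  map_one' := by simp
  map_mul' m m' := by simp only [toAdd_mul, Prod.fst_add, zpow_add₀ hx]

/-- evaluation -/
noncomputable def ev1 {K : Type} [Field K] (x : K) (hx : x ≠ 0) :
    AddMonoidAlgebra K (ℤ × Unit) →ₐ[K] K :=
  AddMonoidAlgebra.lift K K (ℤ × Unit) (chr1 x hx)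

theorem ev1_single {K : Type} [Field K] (x : K) (hx : x ≠ 0) (m : ℤ × Unit) (c : K) :
    ev1 x hx (AddMonoidAlgebra.single m c) = c * x ^ m.1 := by
  unfold ev1
  rw [AddMonoidAlgebra.lift_single]
  rfl

/-- polynomials as Laurent polynomials -/
noncomputable def toL (K : Type) [Field K] : Polynomial K →ₐ[K] AddMonoidAlgebra K (ℤ × Unit) :=
  Polynomial.aeval (AddMonoidAlgebra.single ((1 : ℤ), ()) (1 : K))

theorem toL_monomial {K : Type} [Field K] (n : ℕ) (c : K) :
    toL K (Polynomial.monomial n c) = AddMonoidAlgebra.single ((n : ℤ), ()) c := by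
  unfold toL
  rw [Polynomial.aeval_monomial, AddMonoidAlgebra.single_pow, one_pow]
  have h : (algebraMap K (AddMonoidAlgebra K (ℤ × Unit))) c = AddMonoidAlgebra.single 0 c := rfl
  rw [h, AddMonoidAlgebra.single_mul_single, mul_one, zero_add]
  congr 1
  ext
  · simp

theorem ev1_toL {K : Type} [Field K] (x : K) (hx : x ≠ 0) (g : Polynomial K) :
    ev1 x hx (toL K g) = g.eval x := by
  have h : ((ev1 x hx).comp (toL K)) = Polynomial.aeval x := by
    apply Polynomial.algHom_ext
    rw [AlgHom.comp_apply, Polynomial.aeval_X]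
    unfold toL
    rw [Polynomial.aeval_X, ev1_single]
    simp
  have h2 := congrArg (fun φ : Polynomial K →ₐ[K] K => φ g) h
  simp only [AlgHom.comp_apply] at h2
  rw [h2, Polynomial.coe_aeval_eq_eval]

/-- every Laurent polynomial is a polynomial up to a power of the variable -/
theorem exists_poly {K : Type} [Field K] (f : AddMonoidAlgebra K (ℤ × Unit)) (N : ℤ)
    (hN : ∀ m, f.coeff m ≠ 0 → N ≤ m.1) : ∃ g : Polynomial K,
      toL K g = AddMonoidAlgebra.single (-N, ()) 1 * f ∧
      ∀ n : ℕ, g.coeff n ≠ 0 → f.coeff ((n : ℤ) + N, ()) ≠ 0 := by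
  classical
  refine ⟨∑ m ∈ f.coeff.support, Polynomial.monomial (m.1 - N).toNat (f.coeff m), ?_, ?_⟩
  · rw [map_sum]
    conv_rhs => rw [← AddMonoidAlgebra.sum_coeff_single f]
    rw [Finsupp.sum, Finset.mul_sum]
    apply Finset.sum_congr rfl
    intro m hm
    rw [toL_monomial, AddMonoidAlgebra.single_mul_single, one_mul]
    congr 1
    have := hN m (Finsupp.mem_support_iff.1 hm)
    ext
    · simp only [Prod.fst_add]
      omega
  · intro n hn hf0
    apply hn
    rw [Polynomial.finsetSum_coeff]
    apply Finset.sum_eq_zero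
    intro m hm
    rw [Polynomial.coeff_monomial, if_neg]
    intro h
    have h1 := hN m (Finsupp.mem_support_iff.1 hm)
    have h2 : m = ((n : ℤ) + N, ()) := by
      ext
      · simp only; omega
    rw [h2] at hm
    exact (Finsupp.mem_support_iff.1 hm) hf0

/-- the ideal of a point of the line is generated by `X - x` -/
theorem dvd_of_mem_ker {K : Type} [Field K] (x : K) (hx : x ≠ 0) {w : ℕ}
    {f : AddMonoidAlgebra K (ℤ × Unit)} (hf : f ∈ RingHom.ker (ev1 x hx) ^ w) :
    toL K ((Polynomial.X - Polynomial.C x) ^ w) ∣ f := by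
  have h1 : RingHom.ker (ev1 x hx) ≤ Ideal.span {toL K (Polynomial.X - Polynomial.C x)} := by
    intro g hg
    obtain ⟨N, hN⟩ : ∃ N : ℤ, ∀ m, g.coeff m ≠ 0 → N ≤ m.1 := by
      rcases g.coeff.support.eq_empty_or_nonempty with h | h
      · refine ⟨0, fun m hm => ?_⟩
        have := Finsupp.mem_support_iff.2 hm
        rw [h] at this
        simp at this
      · refine ⟨(g.coeff.support.image Prod.fst).min' (h.image _), fun m hm => ?_⟩
        apply Finset.min'_le
        exact Finset.mem_image_of_mem _ (Finsupp.mem_support_iff.2 hm)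
    obtain ⟨g', hg', -⟩ := exists_poly g N hN
    have h2 : g'.eval x = 0 := by
      rw [← ev1_toL x hx, hg', map_mul]
      rw [RingHom.mem_ker] at hg
      erw [hg]
      rw [mul_zero]
    have h3 := Polynomial.dvd_iff_isRoot.2 h2
    obtain ⟨r, hr⟩ := h3
    have h4 : g = AddMonoidAlgebra.single (N, ()) 1 * toL K g' := by
      rw [hg', ← mul_assoc, AddMonoidAlgebra.single_mul_single, mul_one]
      have : ((N, ()) + (-N, ()) : ℤ × Unit) = 0 := by
        ext
        · simp
      rw [this, ← AddMonoidAlgebra.one_def, one_mul]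
    rw [Ideal.mem_span_singleton, h4, hr, map_mul]
    exact ⟨AddMonoidAlgebra.single (N, ()) 1 * toL K r, by ring⟩
  have h2 := Ideal.pow_right_mono h1 w hf
  rw [Ideal.span_singleton_pow, Ideal.mem_span_singleton, ← map_pow] at h2
  exact h2

theorem toL_injective {K : Type} [Field K] : Function.Injective (toL K) := by
  rw [injective_iff_map_eq_zero]
  intro g hg
  ext n
  have h1 : toL K g = ∑ i ∈ g.support, AddMonoidAlgebra.single ((i : ℤ), ()) (g.coeff i) := by
    conv_lhs => rw [Polynomial.as_sum_support g]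
    rw [map_sum]
    exact Finset.sum_congr rfl fun i _ => toL_monomial i _
  have h2 : (toL K g).coeff ((n : ℤ), ()) = g.coeff n := by
    classical
    rw [h1, AddMonoidAlgebra.coeff_sum, Finsupp.finsetSum_apply]
    have h3 : ∀ i ∈ g.support, (AddMonoidAlgebra.single ((i : ℤ), ()) (g.coeff i)).coeff
        ((n : ℤ), ()) = if i = n then g.coeff i else 0 := by
      intro i _
      rw [AddMonoidAlgebra.coeff_single, Finsupp.single_apply]
      congr 1
      simp
    rw [Finset.sum_congr rfl h3, Finset.sum_ite_eq' g.support n]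
    split_ifs with h
    · rfl
    · rw [Polynomial.notMem_support_iff] at h
      exact h.symm
  rw [← h2, hg]
  simp

theorem good_base' (ι : Type) [Fintype ι] (α β : ℝ) :
    Good ι (P := Unit) (fun _ => 0) α β 1 := by
  classical
  intro B
  obtain ⟨k, ⟨eq⟩⟩ : ∃ k, Nonempty (ι ≃ Fin k) := ⟨Fintype.card ι, ⟨Fintype.equivFin ι⟩⟩
  have hx : ∀ i : ι, (((eq i : ℕ) : ℚ) + 1) ≠ 0 := fun i => by positivity
  refine ⟨ℚ, inferInstance, inferInstance, fun i => ev1 (((eq i : ℕ) : ℚ) + 1) (hx i), ?_⟩
  intro p q w _ hw f hf hm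
  by_contra hne
  have hf' : ∀ m : ℤ × Unit, f.coeff m ≠ 0 → p ≤ m.1 ∧ (m.1 : ℝ) ≤ q := by
    intro m hmm
    obtain ⟨h1, h2⟩ := hf m hmm
    rw [Nat.cast_zero, mul_zero] at h1 h2
    constructor <;> linarith
  obtain ⟨g, hg, hgs⟩ := exists_poly f ⌈p⌉ (fun m hmm => Int.ceil_le.2 (hf' m hmm).1)
  have hg0 : g = 0 := by
    apply base_aux (fun i : ι => (((eq i : ℕ) : ℚ) + 1)) _ w
    · intro i
      have h1 := dvd_of_mem_ker _ (hx i) (hm i)
      have h2 : toL ℚ ((Polynomial.X - Polynomial.C (((eq i : ℕ) : ℚ) + 1)) ^ w i) ∣ toL ℚ g := by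
        rw [hg]
        exact h1.mul_left _
      obtain ⟨r, hr⟩ := h2
      -- the quotient is a Laurent polynomial; clear the denominator
      obtain ⟨N, hN⟩ : ∃ N : ℕ, ∀ m, r.coeff m ≠ 0 → -(N : ℤ) ≤ m.1 := by
        refine ⟨∑ m ∈ r.coeff.support, m.1.natAbs, fun m hmm => ?_⟩
        have := Finset.single_le_sum (f := fun m : ℤ × Unit => m.1.natAbs)
          (fun _ _ => Nat.zero_le _) (Finsupp.mem_support_iff.2 hmm)
        omega
      obtain ⟨r', hr', -⟩ := exists_poly r (-(N : ℤ)) hN
      have h3 : (Polynomial.X : Polynomial ℚ) ^ N * g =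
          (Polynomial.X - Polynomial.C (((eq i : ℕ) : ℚ) + 1)) ^ w i * r' := by
        apply toL_injective
        rw [map_mul, map_mul, hr, hr', neg_neg]
        have h4 : toL ℚ ((Polynomial.X : Polynomial ℚ) ^ N) = AddMonoidAlgebra.single ((N : ℤ), ()) 1 := by
          rw [← Polynomial.monomial_one_right_eq_X_pow, toL_monomial]
        rw [h4]
        ring
      have h5 : IsCoprime ((Polynomial.X - Polynomial.C (((eq i : ℕ) : ℚ) + 1)) ^ w i)
          ((Polynomial.X : Polynomial ℚ) ^ N) := by
        apply IsCoprime.pow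
        have := Polynomial.isCoprime_X_sub_C_of_isUnit_sub (R := ℚ)
          (a := ((eq i : ℕ) : ℚ) + 1) (b := 0) (by
            rw [sub_zero]
            exact IsUnit.mk0 _ (hx i))
        simpa using this
      exact h5.dvd_of_dvd_mul_left ⟨r', h3⟩
    · by_cases hgz : g = 0
      · rw [hgz, Polynomial.natDegree_zero]
        by_contra hcon
        have h1 : ∑ i, w i = 0 := by omega
        have h2 : ∑ i, (w i : ℝ) = 0 := by exact_mod_cast h1
        apply hne
        rw [← AddMonoidAlgebra.coeff_eq_zero]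
        ext m
        by_contra hmm
        obtain ⟨h3, h4⟩ := hf' m hmm
        rw [h2, mul_one] at hw
        linarith
      · have h1 : g.coeff g.natDegree ≠ 0 := by
          rw [Polynomial.coeff_natDegree]
          exact Polynomial.leadingCoeff_ne_zero.2 hgz
        have h2 := (hf' _ (hgs _ h1)).2
        simp only at h2
        push_cast at h2
        have h3 := Int.le_ceil p
        rw [mul_one] at hw
        have h4 : (g.natDegree : ℝ) < ∑ i, (w i : ℝ) := by linarith
        exact_mod_cast h4
    · intro i j hij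
      apply eq.injective
      apply Fin.ext
      have : ((eq i : ℕ) : ℚ) = ((eq j : ℕ) : ℚ) := by
        simp only at hij
        linarith
      exact_mod_cast this
  rw [hg0, map_zero] at hg
  apply hne
  have h1 : AddMonoidAlgebra.single ((⌈p⌉ : ℤ), ()) (1 : ℚ) *
      (AddMonoidAlgebra.single (-(⌈p⌉ : ℤ), ()) 1 * f) = f := by
    rw [← mul_assoc, AddMonoidAlgebra.single_mul_single, mul_one]
    have : (((⌈p⌉ : ℤ), ()) + (-(⌈p⌉ : ℤ), ()) : ℤ × Unit) = 0 := by
      ext
      · simp
    rw [this, ← AddMonoidAlgebra.one_def, one_mul]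
  rw [← h1, ← hg, mul_zero]

theorem good_base (ι : Type) [Fintype ι] (α β : ℝ) : Good ι (dgp 0) α β 1 :=
  good_base' ι α β

end Pool.Agent.TH396.IN
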