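import Pool.Agent.TH396.IN.Tbg
import Pool.Agent.TH396.IN.Base

/-! The induction over the number of spectators, from the statements of the key lemmas. -/

set_option autoImplicit false

namespace Pool.Agent.TH396.IN

/-- the statement of the key lemma for the triangles with two real slopes -/
def Key2 (ι : Type) [Fintype ι] : Prop :=
  ∀ (P : Type) [AddCommMonoid P] (dg : P → ℕ) (α β σ c : ℝ), 1 / 2 ≤ α → 1 / 2 ≤ β → 0 < σ →
    σ < 1 / 2 → GoodT ι dg σ (4 * (α + β)) (2 * (α + β)) c → Good ι (dgS dg) α β (2 * c)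

/-- the statement of the key lemma for the plane -/
def Key3 (ι : Type) [Fintype ι] : Prop :=
  ∀ (P : Type) [AddCommMonoid P] (dg : P → ℕ) (σ c : ℝ), 0 < σ → σ < 1 / 2 →
    GoodT ι dg σ 9 3 c → GoodS ι dg (3 * c)

theorem good_all_of {ι : Type} [Fintype ι] (hk : Key2 ι) {h : ℝ} (h0 : 0 < h) (h1 : h ≤ 1 / 2)
    (k : ℕ) : ∀ α β : ℝ, 1 / 2 ≤ α → 1 / 2 ≤ β → α + β = Fintype.card ι * h ^ (k + 1) →
      Good ι (dgp k) α β (h⁻¹ ^ k) := by
  induction k with
  | zero =>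
    intro α β _ _ _
    rw [pow_zero]
    exact good_base ι α β
  | succ k ih =>
    intro α β hα hβ hs
    obtain ⟨κ, hκ⟩ : ∃ κ : ℝ, κ = α + β := ⟨_, rfl⟩
    have hκ1 : 1 ≤ κ := by rw [hκ]; linarith
    obtain ⟨u, hu⟩ : ∃ u : ℝ, u = h⁻¹ := ⟨_, rfl⟩
    have huh : u * h = 1 := by rw [hu]; exact inv_mul_cancel₀ h0.ne'
    have hu2 : 2 ≤ u := by
      rw [hu, le_inv_comm₀ (by norm_num) h0]
      linarith
    rw [← hu] at ih ⊢
    obtain ⟨W, hW⟩ : ∃ W : ℝ, W = 2 * κ * u := ⟨_, rfl⟩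
    have hW4 : 4 * κ ≤ W := by
      rw [hW]
      nlinarith
    -- the integer slope
    obtain ⟨v, hv⟩ : ∃ v : ℤ, v = ⌊W⌋ - 1 := ⟨_, rfl⟩
    have hv1 : (v : ℝ) ≤ W - 1 := by
      rw [hv]; push_cast
      have := Int.floor_le W
      linarith
    have hv2 : W - 2 < v := by
      rw [hv]; push_cast
      have := Int.lt_floor_add_one W
      linarith
    obtain ⟨σ, hσ⟩ : ∃ σ : ℝ, σ = (W - v) / (4 * κ) := ⟨_, rfl⟩
    have hκ4 : 0 < 4 * κ := by linarith
    have hσκ : 4 * κ * σ = W - v := by rw [hσ]; field_simp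
    have hσ0 : 0 < σ := by
      rw [hσ]
      apply div_pos _ hκ4
      linarith
    have hσ1 : σ < 1 / 2 := by
      rw [hσ, div_lt_iff₀ hκ4]
      linarith
    have hWv : (v : ℝ) + 4 * κ * σ = W := by rw [hσκ]; ring
    -- the induction hypothesis
    have h2 : Good ι (dgp k) (σ * (2 * κ)) (v * (2 * κ) / (4 * κ)) (u ^ k) := by
      apply ih
      · have : σ * (2 * κ) = (W - v) / 2 := by rw [← hσκ]; ring
        rw [this]; linarith
      · have : (v : ℝ) * (2 * κ) / (4 * κ) = v / 2 := by field_simp; ring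
        rw [this]; linarith
      · have e1 : (v : ℝ) * (2 * κ) / (4 * κ) = v / 2 := by field_simp; ring
        have e2 : σ * (2 * κ) = (W - v) / 2 := by rw [← hσκ]; ring
        rw [e1, e2]
        have e3 : (W - v) / 2 + v / 2 = κ * u := by rw [hW]; ring
        rw [e3, hκ, hs]
        linear_combination (Fintype.card ι * h ^ (k + 1)) * huh
    have h3 : GoodT ι (dgp k) σ (4 * κ) (2 * κ) ((v + 4 * κ * σ) * u ^ k / (4 * κ)) := by
      refine goodT_of_good hσ0.le hκ4 (by linarith) (by positivity) (by rw [hWv]; exact hW4) ?_ h2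
      rw [hWv, hW]
      have e1 : (Fintype.card ι : ℝ) = κ * u ^ (k + 2) := by
        have : (Fintype.card ι : ℝ) * h ^ (k + 1 + 1) * u ^ (k + 2) =
          Fintype.card ι * (u * h) ^ (k + 2) := by ring
        rw [hκ, hs, this, huh]
        ring
      rw [e1]
      ring
    have h4 := hk (Sp k) (dgp k) α β σ _ hα hβ hσ0 hσ1 (by rw [← hκ]; exact h3)
    rw [hWv, hW] at h4
    have e1 : 2 * (2 * κ * u * u ^ k / (4 * κ)) = u ^ (k + 1) := by
      field_simp
      ring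
    rw [e1] at h4
    exact h4

theorem good_space_of {ι : Type} [Fintype ι] (hk : Key2 ι) (hk3 : Key3 ι) {h : ℝ} (h0 : 0 < h)
    (h1 : h ≤ 1 / 3) (k : ℕ) (hs : Fintype.card ι * h ^ (k + 2) = 1) :
    GoodS ι (dgp k) (h⁻¹ ^ (k + 1)) := by
  obtain ⟨u, hu⟩ : ∃ u : ℝ, u = h⁻¹ := ⟨_, rfl⟩
  have huh : u * h = 1 := by rw [hu]; exact inv_mul_cancel₀ h0.ne'
  have hu2 : 3 ≤ u := by
    rw [hu, le_inv_comm₀ (by norm_num) h0]
    linarith
  obtain ⟨W, hW⟩ : ∃ W : ℝ, W = 3 * u := ⟨_, rfl⟩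
  have hW9 : 9 ≤ W := by
    rw [hW]
    linarith
  obtain ⟨v, hv⟩ : ∃ v : ℤ, v = ⌊W⌋ - 2 := ⟨_, rfl⟩
  have hv1 : (v : ℝ) ≤ W - 2 := by
    rw [hv]; push_cast
    have := Int.floor_le W
    linarith
  have hv2 : W - 3 < v := by
    rw [hv]; push_cast
    have := Int.lt_floor_add_one W
    linarith
  obtain ⟨σ, hσ⟩ : ∃ σ : ℝ, σ = (W - v) / 9 := ⟨_, rfl⟩
  have hσ9 : 9 * σ = W - v := by rw [hσ]; ring
  have hσ0 : 0 < σ := by rw [hσ]; apply div_pos <;> linarith
  have hσ1 : σ < 1 / 2 := by rw [hσ, div_lt_iff₀ (by norm_num)]; linarith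
  have hWv : (v : ℝ) + 9 * σ = W := by rw [hσ9]; ring
  have h2 : Good ι (dgp k) (σ * 3) (v * 3 / 9) (u ^ k) := by
    rw [hu]
    apply good_all_of hk h0 (by linarith)
    · linarith
    · linarith
    · have e3 : σ * 3 + v * 3 / 9 = u := by
        have : σ * 3 + v * 3 / 9 = W / 3 := by rw [← hWv]; ring
        rw [this, hW]; ring
      rw [e3]
      have h5 : u * (Fintype.card ι * h ^ (k + 2)) = Fintype.card ι * h ^ (k + 1) := by
        linear_combination (Fintype.card ι * h ^ (k + 1)) * huh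
      rw [hs, mul_one] at h5
      exact h5
  rw [← hu]
  have h3 : GoodT ι (dgp k) σ 9 3 ((v + 9 * σ) * u ^ k / 9) := by
    refine goodT_of_good hσ0.le (by norm_num) (by norm_num) (by positivity)
      (by rw [hWv]; exact hW9) ?_ h2
    rw [hWv, hW]
    have e1 : (Fintype.card ι : ℝ) = u ^ (k + 2) := by
      have h5 : (Fintype.card ι * h ^ (k + 2)) * u ^ (k + 2) =
          Fintype.card ι * (u * h) ^ (k + 2) := by ring
      rw [hs, huh, one_mul, one_pow, mul_one] at h5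
      exact h5.symm
    rw [e1]
    ring
  have h4 := hk3 (Sp k) (dgp k) σ _ hσ0 hσ1 h3
  rw [hWv, hW] at h4
  have e1 : 3 * (3 * u * u ^ k / 9) = u ^ (k + 1) := by
    ring
  rw [e1] at h4
  exact h4

end Pool.Agent.TH396.IN
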