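import Pool.Agent.TH159.IA.KeyGen
import Pool.Agent.TH386.IA.Div2
import Pool.Agent.TH396.IN.Ind

/-! KEY3: division by the equation `Z ^ 2 - z (z - 1) ^ 2 + t` and the restriction to the curve
`z = u ^ 2`, `Z = u ^ 3 - u`. -/

set_option autoImplicit false

namespace Pool.Agent.TH396.IN

open Pool.Agent.TH159.IA Pool.Agent.TH386.IA

section div
variable {K : Type} [Field K] {P : Type} [AddCommMonoid P]

/-- the simplex -/
def SR (dg : P → ℕ) (d : ℤ) : Set (ℤ × (ℕ × P)) :=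
  {m | 0 ≤ m.1 ∧ m.1 + m.2.1 + dg m.2.2 ≤ d}

/-- the remainders -/
def SRm (dg : P → ℕ) (d : ℤ) : Set (ℤ × (ℕ × P)) := {m | m ∈ SR dg d ∧ m.1 ≤ 2}

/-- one step of the division -/
def DT (dg : P → ℕ) (d : ℤ) (t : K) (f : LP K (ℕ × P)) : Prop :=
  ∃ g f1 : LP K (ℕ × P), f = g + f1 * Hk P 1 t ∧ SupP (SRm dg d) g ∧ SupP (SR dg (d - 3)) f1

theorem DT.zero (dg : P → ℕ) (d : ℤ) (t : K) : DT dg d t 0 :=
  ⟨0, 0, by simp, SupP.zero _, SupP.zero _⟩

theorem DT.add {dg : P → ℕ} {d : ℤ} {t : K} {f f' : LP K (ℕ × P)}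
    (h : DT dg d t f) (h' : DT dg d t f') : DT dg d t (f + f') := by
  obtain ⟨g, f1, rfl, h1, h2⟩ := h
  obtain ⟨g', f1', rfl, h1', h2'⟩ := h'
  exact ⟨g + g', f1 + f1', by ring, h1.add h1', h2.add h2'⟩

theorem DT.neg {dg : P → ℕ} {d : ℤ} {t : K} {f : LP K (ℕ × P)}
    (h : DT dg d t f) : DT dg d t (-f) := by
  obtain ⟨g, f1, rfl, h1, h2⟩ := h
  exact ⟨-g, -f1, by ring, h1.neg, h2.neg⟩

theorem Hk_one (t : K) : Hk P 1 t = AddMonoidAlgebra.single (0, (2, 0)) 1 -
    AddMonoidAlgebra.single (3, (0, 0)) 1 + AddMonoidAlgebra.single (2, (0, 0)) 2 -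
    AddMonoidAlgebra.single (1, (0, 0)) 1 + AddMonoidAlgebra.single (0, (0, 0)) t := by
  unfold Hk
  norm_num

theorem DT.single {dg : P → ℕ} (t : K) (d : ℤ) (c : P) (N : ℕ) :
    ∀ (a : ℤ) (n : ℕ) (r : K), a.toNat = N → ((a, (n, c)) : ℤ × (ℕ × P)) ∈ SR dg d →
      DT dg d t (AddMonoidAlgebra.single (a, (n, c)) r) := by
  induction N using Nat.strong_induction_on with
  | _ N ih =>
    intro a n r haN ha
    rcases lt_or_ge a 3 with hn | hn
    · exact ⟨AddMonoidAlgebra.single (a, (n, c)) r, 0, by simp,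
        SupP.single (S := SRm dg d) ⟨ha, by simp only; omega⟩ r, SupP.zero _⟩
    · obtain ⟨b, rfl⟩ : ∃ b, a = b + 3 := ⟨a - 3, by omega⟩
      obtain ⟨ha1, ha2⟩ := ha
      simp only at ha1 ha2
      have key : (AddMonoidAlgebra.single (b + 3, (n, c)) r : LP K (ℕ × P)) =
          ((0 : LP K (ℕ × P)) + AddMonoidAlgebra.single (b, (n, c)) (-r) * Hk P 1 t) +
          (AddMonoidAlgebra.single (b, (n + 2, c)) r + AddMonoidAlgebra.single (b + 2, (n, c)) (r * 2)
            + -AddMonoidAlgebra.single (b + 1, (n, c)) r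
            + AddMonoidAlgebra.single (b, (n, c)) (r * t)) := by
        rw [Hk_one]
        simp only [mul_add, mul_sub, AddMonoidAlgebra.single_mul_single, Prod.mk_add_mk, add_zero,
          mul_one, neg_mul, AddMonoidAlgebra.single_neg]
        abel
      rw [key]
      refine DT.add ?_ (((DT.add ?_ ?_).add ?_).add ?_)
      · refine ⟨0, _, rfl, SupP.zero _,
          SupP.single (S := SR dg (d - 3)) ⟨?_, ?_⟩ (-r)⟩ <;>
          simp only <;> omega
      · refine ih b.toNat (by omega) b (n + 2) r rfl ⟨?_, ?_⟩ <;> simp only <;> omega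
      · refine ih (b + 2).toNat (by omega) (b + 2) n (r * 2) rfl ⟨?_, ?_⟩ <;> simp only <;> omega
      · apply DT.neg
        refine ih (b + 1).toNat (by omega) (b + 1) n r rfl ⟨?_, ?_⟩ <;> simp only <;> omega
      · refine ih b.toNat (by omega) b n (r * t) rfl ⟨?_, ?_⟩ <;> simp only <;> omega

theorem DT.of_supP {dg : P → ℕ} (t : K) {d : ℤ}
    {f : LP K (ℕ × P)} (hf : SupP (SR dg d) f) : DT dg d t f := by
  classical
  rw [← AddMonoidAlgebra.sum_coeff_single f, Finsupp.sum]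
  have : ∀ s : Finset (ℤ × (ℕ × P)), (∀ m ∈ s, f.coeff m ≠ 0) →
      DT dg d t (∑ m ∈ s, AddMonoidAlgebra.single m (f.coeff m)) := by
    intro s
    induction s using Finset.induction_on with
    | empty => intro _; simpa using DT.zero dg d t
    | insert m s hm ih =>
      intro hs
      rw [Finset.sum_insert hm]
      refine DT.add ?_ (ih fun m' hm' => hs m' (Finset.mem_insert_of_mem hm'))
      obtain ⟨a, n, c⟩ := m
      exact DT.single t d c a.toNat a n _ rfl (hf _ (hs _ (Finset.mem_insert_self _ _)))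
  exact this _ fun m hm => Finsupp.mem_support_iff.1 hm

theorem div3_aux {dg : P → ℕ} (t : K) (E : ℕ) :
    ∀ (d : ℤ) (f : LP K (ℕ × P)), d < 3 * E → SupP (SR dg d) f →
      ∃ h : ℕ → LP K (ℕ × P), f = ∑ e ∈ Finset.range E, h e * Hk P 1 t ^ e ∧
        ∀ (e : ℕ) m, (h e).coeff m ≠ 0 → m ∈ SRm dg (d - 3 * e) := by
  induction E with
  | zero =>
    intro d f hE hf
    refine ⟨fun _ => 0, ?_, fun e m hm => by simp at hm⟩
    have : f.coeff = 0 := by
      ext m
      by_contra hc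
      obtain ⟨h1, h2⟩ := hf m (by simpa using hc)
      simp only [Nat.cast_zero, mul_zero] at hE
      omega
    simpa using AddMonoidAlgebra.coeff_eq_zero.1 this
  | succ E ih =>
    intro d f hE hf
    obtain ⟨g, f1, rfl, hg, hf1⟩ := DT.of_supP t hf
    obtain ⟨h, hh1, hh2⟩ := ih (d - 3) f1 (by push_cast at hE; omega) hf1
    refine ⟨fun e => Nat.casesOn e g h, ?_, ?_⟩
    · rw [Finset.sum_range_succ']
      simp only [pow_zero, mul_one]
      rw [add_comm g, hh1, Finset.sum_mul]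
      congr 1
      apply Finset.sum_congr rfl
      intro e _
      ring
    · rintro (_ | e) m hm
      · obtain ⟨h3, h4⟩ := hg m hm
        refine ⟨?_, h4⟩
        simpa using h3
      · have h3 := hh2 e m hm
        have h4 : d - 3 * ((e + 1 : ℕ) : ℤ) = d - 3 - 3 * (e : ℤ) := by push_cast; ring
        rw [h4]
        exact h3

end div

section curve
variable {F : Type} [Field F]

theorem om1 : om 1 (uu F) = AddMonoidAlgebra.single 3 1 - AddMonoidAlgebra.single 1 1 := by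
  have h1 : om 1 (uu F) = ((uu F : (LZ F)ˣ) : LZ F) ^ 2 *
    (((uu F : (LZ F)ˣ) : LZ F) - (((uu F)⁻¹ : (LZ F)ˣ) : LZ F)) := rfl
  rw [h1]
  have h2 : ((uu F : (LZ F)ˣ) : LZ F) = AddMonoidAlgebra.single 1 1 := rfl
  have h3 : (((uu F)⁻¹ : (LZ F)ˣ) : LZ F) = AddMonoidAlgebra.single (-1) 1 := rfl
  rw [h2, h3, AddMonoidAlgebra.single_pow, mul_sub, AddMonoidAlgebra.single_mul_single,
    AddMonoidAlgebra.single_mul_single]
  norm_num

theorem pow_om1 (n : ℕ) : (∀ i : ℤ, (om 1 (uu F) ^ n).coeff i ≠ 0 → (n : ℤ) ≤ i ∧ i ≤ 3 * n) ∧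
    (om 1 (uu F) ^ n).coeff (3 * n) = 1 := by
  classical
  induction n with
  | zero =>
    rw [pow_zero, AddMonoidAlgebra.one_def]
    refine ⟨?_, ?_⟩
    · intro i hi
      rw [AddMonoidAlgebra.coeff_single, Finsupp.single_apply] at hi
      by_cases h : (0 : ℤ) = i
      · subst h; simp
      · exact absurd (if_neg h) hi
    · simp
  | succ n ih =>
    have hc : ∀ i : ℤ, (om 1 (uu F) ^ (n + 1)).coeff i =
        (om 1 (uu F) ^ n).coeff (i - 3) - (om 1 (uu F) ^ n).coeff (i - 1) := by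
      intro i
      rw [pow_succ']
      conv_lhs => rw [show om 1 (uu F) * om 1 (uu F) ^ n =
        (AddMonoidAlgebra.single 3 1 - AddMonoidAlgebra.single 1 1) * om 1 (uu F) ^ n by
          conv_rhs => rw [← om1]]
      rw [sub_mul, AddMonoidAlgebra.coeff_sub, Finsupp.sub_apply,
        AddMonoidAlgebra.coeff_single_mul_apply, AddMonoidAlgebra.coeff_single_mul_apply, one_mul,
        one_mul, neg_add_eq_sub, neg_add_eq_sub]
    refine ⟨?_, ?_⟩
    · intro i hi
      rw [hc] at hi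
      by_cases h : (om 1 (uu F) ^ n).coeff (i - 3) = 0
      · rw [h, zero_sub, neg_ne_zero] at hi
        have := ih.1 _ hi
        push_cast
        omega
      · have := ih.1 _ h
        push_cast
        omega
    · rw [hc]
      have h1 : 3 * ((n + 1 : ℕ) : ℤ) - 3 = 3 * n := by push_cast; ring
      have h2 : (om 1 (uu F) ^ n).coeff (3 * ((n + 1 : ℕ) : ℤ) - 1) = 0 := by
        by_contra h
        have := ih.1 _ h
        push_cast at this
        omega
      rw [h1, h2, ih.2, sub_zero]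

/-- the coefficients of the monomials on the curve -/
theorem bm_coeff (m : ℤ × ℕ) : (∀ i : ℤ,
    ((bm (uu F) (om 1 (uu F)) (Multiplicative.ofAdd m) : LZ F)).coeff i ≠ 0 →
      2 * m.1 + m.2 ≤ i ∧ i ≤ 2 * m.1 + 3 * m.2) ∧
    ((bm (uu F) (om 1 (uu F)) (Multiplicative.ofAdd m) : LZ F)).coeff (2 * m.1 + 3 * m.2) = 1 := by
  have h1 : (bm (uu F) (om 1 (uu F)) (Multiplicative.ofAdd m) : LZ F) =
      (((uu F) ^ (2 * m.1) : (LZ F)ˣ) : LZ F) * om 1 (uu F) ^ m.2 := rfl
  have h2 : ∀ i : ℤ, ((bm (uu F) (om 1 (uu F)) (Multiplicative.ofAdd m) : LZ F)).coeff i =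
      (om 1 (uu F) ^ m.2).coeff (i - 2 * m.1) := by
    intro i
    rw [h1, uu_zpow, AddMonoidAlgebra.coeff_single_mul_apply, one_mul, neg_add_eq_sub]
  obtain ⟨h3, h4⟩ := pow_om1 (F := F) m.2
  refine ⟨?_, ?_⟩
  · intro i hi
    rw [h2] at hi
    have := h3 _ hi
    omega
  · rw [h2]
    have : 2 * m.1 + 3 * (m.2 : ℤ) - 2 * m.1 = 3 * m.2 := by ring
    rw [this, h4]

theorem win3 (F : Type) [Field F] {T : Set (ℤ × ℕ)} {D : ℝ}
    (hT : ∀ m ∈ T, 0 ≤ m.1 ∧ m.1 ≤ 2 ∧ (m.1 : ℝ) + m.2 ≤ D) : Win F 1 T 0 (3 * D) := by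
  classical
  intro g hg hgT
  have hGG : ∀ i : ℤ, (GG 1 g).coeff i = ∑ m ∈ g.coeff.support,
      g.coeff m * ((bm (uu F) (om 1 (uu F)) (Multiplicative.ofAdd m) : LZ F)).coeff i := by
    intro i
    unfold GG
    rw [lift_eq_sum (bi (uu F) (om 1 (uu F))) g subset_rfl, AddMonoidAlgebra.coeff_sum,
      Finsupp.finsetSum_apply]
    apply Finset.sum_congr rfl
    intro m _
    rw [Pool.Agent.TH159.IA.bi_single, coeff_algebraMap_mul]
  have hsup : g.coeff.support.Nonempty := by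
    rw [Finset.nonempty_iff_ne_empty]
    intro h
    apply hg
    rw [Finsupp.support_eq_empty] at h
    exact AddMonoidAlgebra.coeff_eq_zero.1 h
  refine ⟨?_, ?_⟩
  · -- the leading coefficient
    obtain ⟨m, hm, hmax⟩ := Finset.exists_max_image g.coeff.support
      (fun m : ℤ × ℕ => 2 * m.1 + 3 * (m.2 : ℤ)) hsup
    intro h0
    have h1 := hGG (2 * m.1 + 3 * m.2)
    rw [h0, Finset.sum_eq_single m] at h1
    · rw [(bm_coeff m).2, mul_one] at h1
      exact (Finsupp.mem_support_iff.1 hm) h1.symm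
    · intro m' hm' hne
      by_contra h2
      have h3 := (bm_coeff m').1 _ (right_ne_zero_of_mul h2)
      have h4 := hmax m' hm'
      obtain ⟨a1, a2, -⟩ := hT m (hgT m (Finsupp.mem_support_iff.1 hm))
      obtain ⟨b1, b2, -⟩ := hT m' (hgT m' (Finsupp.mem_support_iff.1 hm'))
      apply hne
      have h5 : m'.1 = m.1 := by omega
      have h6 : m'.2 = m.2 := by omega
      exact Prod.ext h5 h6
    · intro h2
      exact absurd hm h2
  · intro i hi
    rw [hGG] at hi
    obtain ⟨m, hm, h1⟩ := Finset.exists_ne_zero_of_sum_ne_zero hi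
    have h2 := (bm_coeff m).1 _ (right_ne_zero_of_mul h1)
    obtain ⟨a1, a2, a3⟩ := hT m (hgT m (Finsupp.mem_support_iff.1 hm))
    constructor
    · have : (0 : ℤ) ≤ i := by omega
      exact_mod_cast this
    · have h3 : (i : ℝ) ≤ 2 * m.1 + 3 * m.2 := by exact_mod_cast h2.2
      have h4 : (0 : ℝ) ≤ m.1 := by exact_mod_cast a1
      linarith

end curve

/-- KEY3 -/
theorem key3 (ι : Type) [Fintype ι] : Key3 ι := by
  classical
  intro P _ dg σ c h0 h1 hG B
  obtain ⟨F, hF, hF0, e, he⟩ := hG (3 * B)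
  obtain ⟨e', he'⟩ := key_gen (F := F) (P := P) (k := 1) le_rfl h0 h1
    (s := max 1 (3 * B + 1)) (le_max_left _ _) e
  have hchar : CharZero (HK F) :=
    charZero_of_injective_ringHom (f := (HahnSeries.C : F →+* HK F)) HahnSeries.C_injective
  refine ⟨HK F, inferInstance, hchar, e', ?_⟩
  intro d w hB hw f hf hM
  by_contra hne
  obtain ⟨h, hh1, hh2⟩ := div3_aux (dg := dg) (HahnSeries.single 1 1 : HK F) (d + 1) d f
    (by push_cast; omega) (fun m hm => by
      have := hf m hm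
      exact ⟨this.1, this.2⟩)
  choose C hC1 hC2 using fun e => sum_slices (h e)
  obtain ⟨D, hD⟩ : ∃ D : Finset P, D = (Finset.range (d + 1)).biUnion C := ⟨_, rfl⟩
  have hA : f = ∑ j ∈ Finset.range (d + 1) ×ˢ D, emb (HK F) P (sl j.2 (h j.1)) *
      Hk P 1 (HahnSeries.single 1 1) ^ j.1 * AddMonoidAlgebra.single (0, (0, j.2)) 1 := by
    rw [Finset.sum_product]
    conv_lhs => rw [hh1]
    apply Finset.sum_congr rfl
    intro n hn
    simp only
    have h3 : h n = ∑ c ∈ D, emb (HK F) P (sl c (h n)) *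
        AddMonoidAlgebra.single (0, (0, c)) 1 := by
      conv_lhs => rw [hC2 n]
      apply Finset.sum_subset
      · rw [hD]
        exact Finset.subset_biUnion_of_mem C hn
      · intro c _ hc
        have h4 : sl c (h n) = 0 := by
          by_contra h5
          exact hc (hC1 n c h5)
        rw [h4, map_zero, zero_mul]
    conv_lhs => rw [h3]
    rw [Finset.sum_mul]
    apply Finset.sum_congr rfl
    intro c _
    ring
  have hW : ∀ j ∈ Finset.range (d + 1) ×ˢ D, Win F 1 {m | (sl j.2 (h j.1)).coeff m ≠ 0} 0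
      (3 * ((d : ℝ) - 3 * j.1 - dg j.2)) ∧ 3 * ((d : ℝ) - 3 * j.1 - dg j.2) - 0 <
        max 1 (3 * (B : ℝ) + 1) := by
    intro j _
    refine ⟨?_, ?_⟩
    · apply win3
      intro m hm
      obtain ⟨h7, h8⟩ := hh2 j.1 (m.1, (m.2, j.2)) hm
      obtain ⟨h9, h10⟩ := h7
      simp only at h8 h9 h10
      refine ⟨h9, h8, ?_⟩
      have h11 : (m.1 : ℝ) + m.2 + dg j.2 ≤ d - 3 * j.1 := by exact_mod_cast h10
      linarith
    · have e1 : (0 : ℝ) ≤ j.1 := Nat.cast_nonneg _
      have e2 : (0 : ℝ) ≤ dg j.2 := Nat.cast_nonneg _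
      have e3 : 3 * (B : ℝ) + 1 ≤ max 1 (3 * (B : ℝ) + 1) := le_max_right _ _
      have e4 : (d : ℝ) ≤ B := by exact_mod_cast hB
      linarith
  obtain ⟨f', h4, h5, h6⟩ := he' f w (Finset.range (d + 1) ×ˢ D) (fun j => sl j.2 (h j.1))
    (fun _ => 0) (fun j => 3 * ((d : ℝ) - 3 * j.1 - dg j.2)) hne hM hA hW
  apply h4
  refine he (3 * d) w (by
    have : (d : ℝ) ≤ B := by exact_mod_cast hB
    linarith) (by linarith) f' ?_ h5
  intro m hm
  obtain ⟨_, h7, h8⟩ := h6 m hm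
  constructor
  · refine le_trans (le_of_eq ?_) h7
    ring
  · refine le_trans h8 (le_of_eq ?_)
    ring

end Pool.Agent.TH396.IN
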