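import Pool.Agent.TH396.IN.Main
import Pool.Agent.TH396.IN.Key3

/-! Points with algebraically independent coordinates over every field of characteristic zero. -/

set_option autoImplicit false

namespace Pool.Agent.TH396.IN

open MvPolynomial Pool.Agent.H932R5

theorem ker_le_pt {K : Type} [Field K] {E : ℕ} (P : Fin (E + 1) → K) :
    RingHom.ker (eval P) ≤ pt P := by
  intro f hf
  have h0 : eval P f = 0 := hf
  rw [← pow_one (pt P), mem_pt_pow_iff]
  intro s hs
  have hs0 : s = 0 := by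
    have : Finsupp.degree s = 0 := by omega
    exact (Finsupp.degree_eq_zero_iff s).1 this
  subst hs0
  have h : (constantCoeff : MvPolynomial (Fin (E + 1)) K →+* K).comp
      (shift P : MvPolynomial (Fin (E + 1)) K →+* MvPolynomial (Fin (E + 1)) K) = eval P := by
    refine MvPolynomial.ringHom_ext (fun c => ?_) fun j => ?_
    · simp
    · simp [shift_X]
  have h1 := congrArg (fun φ : MvPolynomial (Fin (E + 1)) K →+* K => φ f) h
  have h2 : constantCoeff (shift P f) = eval P f := h1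
  rw [← constantCoeff_eq, h2, h0]

theorem anyField (E r : ℕ) (c : ℝ)
    (H : ∀ (d : ℕ) (w : Fin r → ℕ), (d : ℝ) * c < ∑ i, (w i : ℝ) →
      ∃ (K : Type) (_ : Field K) (_ : CharZero K) (x : Fin r → Fin (E + 1) → K),
        ∀ f ∈ Z w x, (∀ α, coeff α f ≠ 0 → Finsupp.degree α ≤ d) → f = 0)
    {L : Type} [Field L] [CharZero L] (P : Fin r → Fin (E + 1 + 1) → L)
    (hP : AlgebraicIndependent ℚ (fun q : Fin r × Fin (E + 1 + 1) => P q.1 q.2))
    (m : Fin r → ℕ) (d : ℕ) (f : MvPolynomial (Fin (E + 1 + 1)) L) (hfd : f.IsHomogeneous d)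
    (hf0 : f ≠ 0) (hfm : ∀ j : Fin r, f ∈ (RingHom.ker (MvPolynomial.eval (P j))) ^ m j) :
    (∑ j, (m j : ℝ)) ≤ d * c := by
  classical
  by_contra hlt
  push Not at hlt
  obtain ⟨K, iK, iC, x, hx⟩ := H d m hlt
  apply hf0
  refine Pool.Agent.TH380.PN.generic_of_config (E := E + 1) (n := r) (w := m)
    ((dg (E + 1) (d + 1)).filter fun s => Finsupp.degree s = d) (K := K)
    (fun i => (Fin.cons 1 (x i) : Fin (E + 1 + 1) → K)) ?_ P hP f ?_ ?_
  · intro g hg hgT
    have hgd : g.IsHomogeneous d := by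
      intro α hα
      have := (Finset.mem_filter.1 (hgT α hα)).2
      rw [← this]
      rw [Finsupp.degree_eq_weight_one, Pi.one_def]
    refine deh_inj (K := K) (E := E) (d := d) hgd ?_
    refine hx _ ?_ ?_
    · rw [mem_Z] at hg ⊢
      intro i
      have h1 := Ideal.mem_map_of_mem (deh K E) (hg i)
      rw [Ideal.map_pow] at h1
      refine Ideal.pow_right_mono ?_ (m i) h1
      unfold pt
      rw [Ideal.map_span, Ideal.span_le]
      rintro _ ⟨_, ⟨k, rfl⟩, rfl⟩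
      show deh K E (X k - C ((Fin.cons 1 (x i) : Fin (E + 1 + 1) → K) k)) ∈ pt (x i)
      refine Fin.cases ?_ (fun j => ?_) k
      · rw [Fin.cons_zero, map_sub, deh_X0, deh_C, map_one, sub_self]
        exact Ideal.zero_mem _
      · rw [Fin.cons_succ, map_sub, deh_X, deh_C]
        exact Ideal.subset_span ⟨j, rfl⟩
    · intro α hα
      exact mem_mspan.1 (deh_mem (K := K) (E := E) (d := d) hgd) α hα
  · rw [mem_Z]
    intro j
    exact Ideal.pow_right_mono (ker_le_pt (P j)) (m j) (hfm j)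
  · intro α hα
    have h1 : Finsupp.degree α = d := by
      by_contra h
      exact hα (hfd.coeff_eq_zero h)
    rw [Finset.mem_filter, mem_dg]
    exact ⟨by omega, h1⟩

/-- the number `R = r ^ (1 / N)` and the statement for the polynomials of bounded degree -/
theorem exists_R (r k : ℕ) (hr : 3 ^ (k + 2) ≤ r) :
    ∃ R : ℝ, R = (r : ℝ) ^ ((1 : ℝ) / ((k + 2 : ℕ) : ℝ)) ∧ 3 ≤ R ∧ R ^ (k + 2) = r ∧
      GoodS (Fin r) (dgp k) (R ^ (k + 1)) := by
  obtain ⟨R, hR⟩ : ∃ R : ℝ, R = (r : ℝ) ^ ((1 : ℝ) / ((k + 2 : ℕ) : ℝ)) := ⟨_, rfl⟩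
  have hr0 : (0 : ℝ) ≤ r := Nat.cast_nonneg r
  have hR0 : 0 ≤ R := by rw [hR]; exact Real.rpow_nonneg hr0 _
  have hRr : R ^ (k + 2) = r := by
    rw [hR, one_div, Real.rpow_inv_natCast_pow hr0 (by omega)]
  have hR3 : 3 ≤ R := by
    by_contra hlt
    push Not at hlt
    have h1 : R ^ (k + 2) < 3 ^ (k + 2) := pow_lt_pow_left₀ hlt hR0 (by omega)
    rw [hRr] at h1
    have h2 : ((3 ^ (k + 2) : ℕ) : ℝ) ≤ r := by exact_mod_cast hr
    push_cast at h2
    linarith
  have hRp : 0 < R := by linarith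
  refine ⟨R, hR, hR3, hRr, ?_⟩
  have hG : GoodS (Fin r) (dgp k) (R⁻¹⁻¹ ^ (k + 1)) := by
    refine good_space_of (Pool.Agent.TH159.IA.key2 (Fin r)) (key3 (Fin r)) (inv_pos.2 hRp) ?_ k ?_
    · rw [one_div]
      exact inv_anti₀ (by norm_num) hR3
    · rw [Fintype.card_fin, inv_pow, hRr]
      have : (r : ℝ) ≠ 0 := by
        rw [← hRr]
        positivity
      exact mul_inv_cancel₀ this
  rwa [inv_inv] at hG

/-- algebraically independent points over every field of characteristic zero -/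
theorem main_field (r k : ℕ) (hr : 3 ^ (k + 2) ≤ r) {L : Type} [Field L] [CharZero L]
    (P : Fin r → Fin (k + 2 + 1) → L)
    (hP : AlgebraicIndependent ℚ (fun q : Fin r × Fin (k + 2 + 1) => P q.1 q.2))
    (m : Fin r → ℕ) (d : ℕ) (f : MvPolynomial (Fin (k + 2 + 1)) L) (hfd : f.IsHomogeneous d)
    (hf0 : f ≠ 0) (hfm : ∀ j : Fin r, f ∈ (RingHom.ker (MvPolynomial.eval (P j))) ^ m j) :
    (∑ j, (m j : ℝ)) * (r : ℝ) ^ ((1 : ℝ) / ((k + 2 : ℕ) : ℝ)) ≤ d * r := by
  obtain ⟨R, hR, hR3, hRr, hG⟩ := exists_R r k hr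
  have hR0 : 0 ≤ R := by linarith
  have h1 := anyField (k + 1) r (R ^ (k + 1))
    (Pool.Agent.TH380.PN.points_of_good r k (R ^ (k + 1)) hG) P hP m d f hfd hf0 hfm
  rw [← hR]
  have h2 : R ^ (k + 1) * R = r := by rw [← pow_succ, hRr]
  calc (∑ j, (m j : ℝ)) * R ≤ d * R ^ (k + 1) * R := mul_le_mul_of_nonneg_right h1 hR0
    _ = d * r := by rw [mul_assoc, h2]

/-- very general complex points -/
theorem main (r k : ℕ) (hr : 3 ^ (k + 2) ≤ r) :
    ∃ F : ℕ → MvPolynomial (Fin r × Fin (k + 2 + 1)) ℂ, (∀ i, F i ≠ 0) ∧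
      ∀ P : Fin r → Fin (k + 2 + 1) → ℂ,
        (∀ i, MvPolynomial.eval (fun q : Fin r × Fin (k + 2 + 1) => P q.1 q.2) (F i) ≠ 0) →
        ∀ (m : Fin r → ℕ) (d : ℕ) (f : MvPolynomial (Fin (k + 2 + 1)) ℂ),
          f.IsHomogeneous d → f ≠ 0 →
          (∀ j : Fin r, f ∈ (RingHom.ker (MvPolynomial.eval (P j))) ^ m j) →
          (∑ j, (m j : ℝ)) * (r : ℝ) ^ ((1 : ℝ) / ((k + 2 : ℕ) : ℝ)) ≤ d * r :=
  main_of r k (key3 (Fin r)) hr

end Pool.Agent.TH396.IN
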