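import Pool.Agent.TH159.IA.Lead0

/-! The coefficients on the two edges. -/

set_option autoImplicit false

namespace Pool.Agent.TH159.IA

open Pool.Agent.TH396.IN

section face
variable {F : Type} [Field F]

/-- all terms `t ^ a X ^ (δ i)` satisfy `τ i ≤ a` and `-(1 - τ) i ≤ a` -/
def Fc (δ : ℤ) (τ : ℝ) (r : H1 F) : Prop :=
  ∀ (a : ℝ) (i : ℤ), cf1 r a (δ * i) ≠ 0 → τ * i ≤ a ∧ -((1 - τ) * i) ≤ a

theorem A0.fc {σ : ℝ} {r : H1 F} (h : A0 σ r) : Fc 1 σ r := by
  intro a i hi
  rw [one_mul] at hi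
  exact h a i hi

theorem A0.fc' {σ : ℝ} {r : H1 F} (h : A0 σ r) : Fc (-1) (1 - σ) r := by
  intro a i hi
  obtain ⟨h1, h2⟩ := h a _ hi
  push_cast at h1 h2
  constructor <;> linarith

theorem cf1_algebraMap (x : F) (a : ℝ) (i : ℤ) :
    cf1 (algebraMap F (H1 F) x) a i = if a = 0 ∧ i = 0 then x else 0 := by
  classical
  have h : algebraMap F (H1 F) x = HahnSeries.C (algebraMap F (LZ F) x) := algebraMap_H1 x
  have h2 : algebraMap F (LZ F) x = AddMonoidAlgebra.single 0 x := by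
    rw [AddMonoidAlgebra.coe_algebraMap]
    rfl
  unfold cf1
  rw [h, HahnSeries.C_apply, HahnSeries.coeff_single, h2]
  by_cases ha : a = 0
  · rw [if_pos ha, AddMonoidAlgebra.coeff_single, Finsupp.single_apply]
    by_cases hi : i = 0
    · rw [if_pos hi.symm, if_pos ⟨ha, hi⟩]
    · rw [if_neg (fun h => hi h.symm), if_neg (fun h => hi h.2)]
  · rw [if_neg ha, if_neg (fun h => ha h.1)]
    rfl

theorem A0.algebraMap (σ : ℝ) (x : F) : A0 σ (algebraMap F (H1 F) x) := by
  intro a i hi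
  rw [cf1_algebraMap] at hi
  have h : a = 0 ∧ i = 0 := by
    by_contra hc
    exact hi (if_neg hc)
  rw [h.1, h.2]
  simp

/-- the subalgebra -/
def A0S (F : Type) [Field F] (σ : ℝ) : Subalgebra F (H1 F) where
  carrier := {r | A0 σ r}
  mul_mem' := fun hr hs => A0.mul hr hs
  add_mem' := fun hr hs => A0.add hr hs
  algebraMap_mem' := fun x => A0.algebraMap σ x

theorem coeff_mul_face {δ : ℤ} (hδ : δ * δ = 1) {τ : ℝ} {x y : LZ F} {a b : ℝ} {k : ℕ}
    (hx : ∀ i : ℤ, x.coeff (δ * i) ≠ 0 → τ * i ≤ a ∧ -((1 - τ) * i) ≤ a)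
    (hy : ∀ i : ℤ, y.coeff (δ * i) ≠ 0 → τ * i ≤ b ∧ -((1 - τ) * i) ≤ b) (hab : a + b = τ * k) :
    (x * y).coeff (δ * k) = ∑ p ∈ Finset.HasAntidiagonal.antidiagonal k,
      if a = τ * p.1 ∧ b = τ * p.2 then x.coeff (δ * p.1) * y.coeff (δ * p.2) else 0 := by
  classical
  rw [AddMonoidAlgebra.coeff_mul_apply_left, Finsupp.sum,
    Finset.Nat.sum_antidiagonal_eq_sum_range_succ_mk]
  obtain ⟨f, hf⟩ : ∃ f : ℤ → F, f = fun i => x.coeff i * y.coeff (-i + δ * k) := ⟨_, rfl⟩
  have hδ' : ∀ i : ℤ, δ * (δ * i) = i := fun i => by rw [← mul_assoc, hδ, one_mul]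
  -- nonzero terms
  have key : ∀ i : ℤ, f (δ * i) ≠ 0 → a = τ * i ∧ b = τ * (k - i) ∧ 0 ≤ i ∧ i ≤ k := by
    intro i hi
    rw [hf] at hi
    simp only at hi
    have h1 := hx i (left_ne_zero_of_mul hi)
    have h2 : -(δ * i) + δ * k = δ * (k - i) := by ring
    rw [h2] at hi
    have h3 := hy (k - i) (right_ne_zero_of_mul hi)
    push_cast at h3
    have h4 : a = τ * i := by linarith [h1.1, h3.1]
    have h5 : b = τ * (k - i) := by linarith
    refine ⟨h4, h5, ?_, ?_⟩
    · have : (0 : ℝ) ≤ i := by linarith [h1.2]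
      exact_mod_cast this
    · have : (i : ℝ) ≤ k := by linarith [h3.2]
      exact_mod_cast this
  have e1 : ∑ i ∈ x.coeff.support, x.coeff i * y.coeff (-i + δ * k) =
      ∑ i ∈ (Finset.range (k + 1)).image (fun n : ℕ => δ * (n : ℤ)), f i := by
    have e2 : ∑ i ∈ x.coeff.support, x.coeff i * y.coeff (-i + δ * k) =
        ∑ i ∈ x.coeff.support, f i := by rw [hf]
    rw [e2]
    refine (Finset.sum_subset (Finset.subset_union_left (s₁ := x.coeff.support)
      (s₂ := (Finset.range (k + 1)).image (fun n : ℕ => δ * (n : ℤ)))) ?_).trans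
      (Finset.sum_subset (Finset.subset_union_right (s₁ := x.coeff.support)
      (s₂ := (Finset.range (k + 1)).image (fun n : ℕ => δ * (n : ℤ)))) ?_).symm
    rotate_left
    · intro i _ hi
      by_contra h
      apply hi
      have h2 : f (δ * (δ * i)) ≠ 0 := by rw [hδ']; exact h
      obtain ⟨-, -, h3, h4⟩ := key _ h2
      rw [Finset.mem_image]
      refine ⟨(δ * i).toNat, ?_, ?_⟩
      · rw [Finset.mem_range]; omega
      · rw [Int.toNat_of_nonneg h3, hδ']
    · intro i _ hi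
      rw [Finsupp.notMem_support_iff] at hi
      rw [hf]
      simp only
      rw [hi, zero_mul]
  rw [e1, Finset.sum_image]
  · apply Finset.sum_congr rfl
    intro n hn
    rw [Finset.mem_range] at hn
    have hkn : ((k - n : ℕ) : ℤ) = k - n := by omega
    by_cases h : a = τ * n ∧ b = τ * ((k - n : ℕ) : ℝ)
    · rw [if_pos h, hf]
      simp only
      have h2 : -(δ * n) + δ * k = δ * (k - n) := by ring
      rw [h2, hkn]
    · rw [if_neg h]
      by_contra h2
      obtain ⟨h3, h4, -, -⟩ := key n h2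
      apply h
      refine ⟨by exact_mod_cast h3, ?_⟩
      rw [h4, Nat.cast_sub (by omega)]
      push_cast
      ring
  · intro n _ m _ h
    simp only at h
    have h2 : δ * (δ * (n : ℤ)) = δ * (δ * (m : ℤ)) := by rw [h]
    rw [hδ', hδ'] at h2
    exact_mod_cast h2

theorem cf1_mul_face {δ : ℤ} (hδ : δ * δ = 1) {τ : ℝ} {r s : H1 F} (hr : Fc δ τ r)
    (hs : Fc δ τ s) (k : ℕ) : cf1 (r * s) (τ * k) (δ * k) =
      ∑ p ∈ Finset.HasAntidiagonal.antidiagonal k,
        cf1 r (τ * p.1) (δ * p.1) * cf1 s (τ * p.2) (δ * p.2) := by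
  classical
  unfold cf1
  rw [HahnSeries.coeff_mul, AddMonoidAlgebra.coeff_sum, Finsupp.finsetSum_apply]
  have e1 : ∀ ab ∈ Finset.antidiagonal r.isPWO_support s.isPWO_support (τ * k),
      (r.coeff ab.1 * s.coeff ab.2).coeff (δ * k) =
      ∑ p ∈ Finset.HasAntidiagonal.antidiagonal k,
      if ab.1 = τ * p.1 ∧ ab.2 = τ * p.2 then (r.coeff ab.1).coeff (δ * p.1) *
        (s.coeff ab.2).coeff (δ * p.2) else 0 := by
    intro ab hab
    rw [Finset.mem_antidiagonal] at hab
    exact coeff_mul_face hδ (fun i hi => hr _ _ hi) (fun i hi => hs _ _ hi) hab.2.2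
  rw [Finset.sum_congr rfl e1, Finset.sum_comm]
  apply Finset.sum_congr rfl
  intro p hp
  rw [Finset.HasAntidiagonal.mem_antidiagonal] at hp
  by_cases h : (τ * (p.1 : ℝ), τ * (p.2 : ℝ)) ∈
      Finset.antidiagonal r.isPWO_support s.isPWO_support (τ * k)
  · rw [Finset.sum_eq_single (τ * (p.1 : ℝ), τ * (p.2 : ℝ))]
    · simp
    · intro ab _ hne
      rw [if_neg]
      rintro ⟨h1, h2⟩
      exact hne (Prod.ext h1 h2)
    · intro h2; exact absurd h h2
  · rw [Finset.sum_eq_zero]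
    · rw [Finset.mem_antidiagonal] at h
      by_contra h2
      apply h
      refine ⟨?_, ?_, ?_⟩
      · rw [HahnSeries.mem_support]
        intro h3
        apply h2
        simp only at h3
        rw [h3]
        simp
      · rw [HahnSeries.mem_support]
        intro h3
        apply h2
        simp only at h3
        rw [h3]
        simp
      · simp only
        rw [← hp]
        push_cast
        ring
    · intro ab hab
      rw [if_neg]
      rintro ⟨h1, h2⟩
      apply h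
      have : ab = (τ * (p.1 : ℝ), τ * (p.2 : ℝ)) := Prod.ext h1 h2
      rw [← this]
      exact hab

/-- the edge as an algebra homomorphism -/
noncomputable def eps (σ : ℝ) (δ : ℤ) (hδ : δ * δ = 1) (τ : ℝ)
    (h : ∀ r : H1 F, A0 σ r → Fc δ τ r) (hτ : 0 < τ) : A0S F σ →ₐ[F] PowerSeries F where
  toFun r := PowerSeries.mk fun k => cf1 (r : H1 F) (τ * k) (δ * k)
  map_one' := by
    ext k
    rw [PowerSeries.coeff_mk, PowerSeries.coeff_one]
    have h1 : ((1 : A0S F σ) : H1 F) = algebraMap F (H1 F) 1 := by simp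
    rw [h1, cf1_algebraMap]
    by_cases hk : k = 0
    · simp [hk]
    · rw [if_neg hk, if_neg]
      rintro ⟨h2, -⟩
      have : (k : ℝ) ≠ 0 := by exact_mod_cast hk
      exact (mul_ne_zero hτ.ne' this) h2
  map_mul' r s := by
    ext k
    rw [PowerSeries.coeff_mk, PowerSeries.coeff_mul]
    simp only [PowerSeries.coeff_mk]
    exact cf1_mul_face hδ (h _ r.2) (h _ s.2) k
  map_zero' := by
    ext k
    rw [PowerSeries.coeff_mk]
    simp [cf1]
  map_add' r s := by
    ext k
    rw [map_add, PowerSeries.coeff_mk, PowerSeries.coeff_mk, PowerSeries.coeff_mk]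
    simp [cf1]
  commutes' x := by
    ext k
    rw [PowerSeries.coeff_mk]
    have h1 : ((algebraMap F (A0S F σ) x : A0S F σ) : H1 F) = algebraMap F (H1 F) x := rfl
    rw [h1, cf1_algebraMap]
    have h2 : algebraMap F (PowerSeries F) x = PowerSeries.C x := rfl
    rw [h2, PowerSeries.coeff_C]
    by_cases hk : k = 0
    · simp [hk]
    · rw [if_neg hk, if_neg]
      rintro ⟨h2, -⟩
      have : (k : ℝ) ≠ 0 := by exact_mod_cast hk
      exact (mul_ne_zero hτ.ne' this) h2

end face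

section poly

/-- the two root multiplicities -/
theorem mult_add_le {F : Type} [Field F] [CharZero F] (p : Polynomial F) :
    Polynomial.rootMultiplicity 1 p + Polynomial.rootMultiplicity (-1) p ≤ p.natDegree := by
  classical
  have hne : (1 : F) ≠ -1 := by
    intro h
    have h2 : (2 : F) = 0 := by linear_combination h
    exact two_ne_zero h2
  have h1 : Multiset.replicate (Polynomial.rootMultiplicity 1 p) (1 : F) +
      Multiset.replicate (Polynomial.rootMultiplicity (-1) p) (-1 : F) ≤ p.roots := by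
    rw [Multiset.le_iff_count]
    intro a
    rw [Multiset.count_add, Multiset.count_replicate, Multiset.count_replicate,
      Polynomial.count_roots]
    by_cases h1 : (1 : F) = a
    · rw [if_pos h1, if_neg, add_zero, h1]
      intro h2
      exact hne (h1.trans h2.symm)
    · rw [if_neg h1, zero_add]
      by_cases h2 : (-1 : F) = a
      · rw [if_pos h2, h2]
      · rw [if_neg h2]
        exact Nat.zero_le _
  have h2 := Multiset.card_le_card h1
  rw [Multiset.card_add, Multiset.card_replicate, Multiset.card_replicate] at h2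
  exact h2.trans (Polynomial.card_roots' p)

/-- from Laurent polynomials to polynomials -/
theorem exists_poly {F : Type} [Field F] {q : LZ F} (hq : q ≠ 0) {P0 P1 : ℝ}
    (hP : ∀ i : ℤ, q.coeff i ≠ 0 → P0 ≤ i ∧ i ≤ P1) :
    ∃ (p : Polynomial F) (i₀ : ℤ), p ≠ 0 ∧ (p.natDegree : ℝ) ≤ P1 - P0 ∧
      ∀ (T : Type) [CommRing T] [Algebra F T] (φ : LZ F →ₐ[F] T),
        φ q = (((Units.map (φ : LZ F →* T) (uu F)) ^ i₀ : Tˣ) : T) *
          Polynomial.aeval ((Units.map (φ : LZ F →* T) (uu F) : Tˣ) : T) p := by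
  classical
  have hne : q.coeff.support.Nonempty := by
    rw [Finset.nonempty_iff_ne_empty]
    intro h
    apply hq
    ext i
    rw [Finsupp.support_eq_empty] at h
    rw [h]
    rfl
  obtain ⟨i₀, hi₀⟩ : ∃ i₀, i₀ = q.coeff.support.min' hne := ⟨_, rfl⟩
  have hmin : ∀ i ∈ q.coeff.support, i₀ ≤ i := fun i hi => by
    rw [hi₀]; exact Finset.min'_le _ _ hi
  have hmem : i₀ ∈ q.coeff.support := by rw [hi₀]; exact Finset.min'_mem _ _
  have hP0 := hP i₀ (Finsupp.mem_support_iff.1 hmem)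
  refine ⟨∑ i ∈ q.coeff.support, Polynomial.monomial (i - i₀).toNat (q.coeff i), i₀, ?_, ?_, ?_⟩
  · intro h
    have h2 := congrArg (fun p : Polynomial F => p.coeff 0) h
    simp only [Polynomial.finsetSum_coeff, Polynomial.coeff_monomial, Polynomial.coeff_zero] at h2
    rw [Finset.sum_eq_single i₀] at h2
    · rw [sub_self, Int.toNat_zero, if_pos rfl] at h2
      exact (Finsupp.mem_support_iff.1 hmem) h2
    · intro i hi hne2
      rw [if_neg]
      have := hmin i hi
      omega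
    · intro h3
      exact absurd hmem h3
  · have hdeg : (∑ i ∈ q.coeff.support, Polynomial.monomial (i - i₀).toNat
        (q.coeff i)).natDegree ≤ ⌊P1 - P0⌋₊ := by
      apply Polynomial.natDegree_sum_le_of_forall_le
      intro i hi
      refine (Polynomial.natDegree_monomial_le _).trans ?_
      apply Nat.le_floor
      have h1 := hP i (Finsupp.mem_support_iff.1 hi)
      have h2 : ((i - i₀).toNat : ℤ) = i - i₀ := Int.toNat_of_nonneg (by have := hmin i hi; omega)
      have h3 : ((i - i₀).toNat : ℝ) = i - i₀ := by exact_mod_cast h2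
      rw [h3]
      linarith [h1.2, hP0.1]
    have hnn : 0 ≤ P1 - P0 := by linarith [hP0.1, hP0.2]
    exact (Nat.le_floor_iff hnn).1 hdeg
  · intro T _ _ φ
    have h1 := lift_eq_sum (φ : LZ F →+* T) q subset_rfl
    have h2 : (φ : LZ F →+* T) q = φ q := rfl
    rw [h2] at h1
    rw [h1, map_sum, Finset.mul_sum]
    apply Finset.sum_congr rfl
    intro i hi
    rw [Polynomial.aeval_monomial]
    have h3 : ((i - i₀).toNat : ℤ) = i - i₀ := Int.toNat_of_nonneg (by have := hmin i hi; omega)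
    obtain ⟨E, hE⟩ : ∃ E : Tˣ, E = Units.map (φ : LZ F →* T) (uu F) := ⟨_, rfl⟩
    rw [← hE]
    have h4 : (E : T) ^ (i - i₀).toNat = ((E ^ (i - i₀) : Tˣ) : T) := by
      rw [← Units.val_pow_eq_pow_val, ← zpow_natCast, h3]
    have h5 : ((E ^ i : Tˣ) : T) = ((E ^ i₀ : Tˣ) : T) * ((E ^ (i - i₀) : Tˣ) : T) := by
      rw [← Units.val_mul, ← zpow_add]
      congr 2
      ring
    have h6 : ∀ i : ℤ, ((uu F ^ i : (LZ F)ˣ) : LZ F) = AddMonoidAlgebra.single i 1 := by
      intro i
      induction i using Int.induction_on with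
      | zero => rw [zpow_zero]; rfl
      | succ n ih =>
        rw [zpow_add_one, Units.val_mul, ih]
        show AddMonoidAlgebra.single _ _ * AddMonoidAlgebra.single _ _ = _
        rw [AddMonoidAlgebra.single_mul_single, one_mul]
      | pred n ih =>
        rw [zpow_sub_one, Units.val_mul, ih]
        show AddMonoidAlgebra.single _ _ * AddMonoidAlgebra.single _ _ = _
        rw [AddMonoidAlgebra.single_mul_single, one_mul]
        rfl
    have h7 : φ (AddMonoidAlgebra.single i 1) = ((E ^ i : Tˣ) : T) := by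
      rw [← h6, hE, ← map_zpow]
      rfl
    have h8 : (AddMonoidAlgebra.single i (q.coeff i) : LZ F) =
        algebraMap F (LZ F) (q.coeff i) * AddMonoidAlgebra.single i 1 := by
      ext j
      rw [coeff_algebraMap_mul, AddMonoidAlgebra.coeff_single, AddMonoidAlgebra.coeff_single,
        Finsupp.single_apply, Finsupp.single_apply]
      split_ifs
      · rw [mul_one]
      · rw [mul_zero]
    rw [h4]
    show φ _ = _
    rw [h8, map_mul, h7, h5, AlgHom.commutes]
    ring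

theorem bi_map {F : Type} [Field F] {S T : Type} [CommRing S] [Algebra F S] [CommRing T]
    [Algebra F T] (φ : S →ₐ[F] T) (c : Sˣ) (D : S) (g : AddMonoidAlgebra F (ℤ × ℕ)) :
    φ (bi c D g) = bi (Units.map (φ : S →* T) c) (φ D) g := by
  rw [lift_eq_sum (bi c D) g subset_rfl, lift_eq_sum (bi _ (φ D)) g subset_rfl, map_sum]
  apply Finset.sum_congr rfl
  intro m _
  rw [bi_single, bi_single, map_mul, AlgHom.commutes]
  congr 1
  show φ (((c ^ (2 * m.1) : Sˣ) : S) * D ^ m.2) =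
    (((Units.map (φ : S →* T) c) ^ (2 * m.1) : Tˣ) : T) * (φ D) ^ m.2
  rw [map_mul, map_pow, ← map_zpow]
  rfl

theorem om_map {F : Type} [Field F] {S T : Type} [CommRing S] [Algebra F S] [CommRing T]
    [Algebra F T] (φ : S →ₐ[F] T) (c : Sˣ) (k : ℕ) :
    φ (om k c) = om k (Units.map (φ : S →* T) c) := by
  unfold om
  rw [map_mul, map_pow, map_sub]
  rfl

/-- the evaluation of Laurent polynomials -/
noncomputable def evL (F : Type) [Field F] {T : Type} [CommRing T] [Algebra F T] (C : Tˣ) :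
    LZ F →ₐ[F] T :=
  AddMonoidAlgebra.lift F T ℤ ((Units.coeHom T).comp (zpowersHom Tˣ C))

theorem evL_uu {F : Type} [Field F] {T : Type} [CommRing T] [Algebra F T] (C : Tˣ) :
    Units.map (evL F C : LZ F →* T) (uu F) = C := by
  ext
  show evL F C (AddMonoidAlgebra.single 1 1) = C
  unfold evL
  rw [AddMonoidAlgebra.lift_single, one_smul]
  simp

theorem bi_om {F : Type} [Field F] {T : Type} [CommRing T] [Algebra F T] (C : Tˣ) (k : ℕ)
    (g : AddMonoidAlgebra F (ℤ × ℕ)) : bi C (om k C) g = evL F C (GG k g) := by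
  unfold GG
  rw [bi_map, om_map, evL_uu]

theorem bi_om_neg {F : Type} [Field F] {T : Type} [CommRing T] [Algebra F T] (C : Tˣ) (k : ℕ)
    (g : AddMonoidAlgebra F (ℤ × ℕ)) : bi C (-om k C) g = evL F (-C) (GG k g) := by
  rw [← bi_om]
  have h1 : om k (-C) = -om k C := by
    unfold om
    rw [Units.val_neg, Even.neg_pow (even_two_mul k)]
    have : ((-C : Tˣ)⁻¹ : Tˣ) = -C⁻¹ := by simp
    rw [this, Units.val_neg]
    ring
  rw [h1, lift_eq_sum (bi C (-om k C)) g subset_rfl, lift_eq_sum (bi (-C) _) g subset_rfl]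
  apply Finset.sum_congr rfl
  intro m _
  rw [bi_single, bi_single]
  congr 1
  show ((C ^ (2 * m.1) : Tˣ) : T) * (-om k C) ^ m.2 =
    (((-C) ^ (2 * m.1) : Tˣ) : T) * (-om k C) ^ m.2
  rw [Even.neg_zpow (even_two_mul m.1)]

/-- the nonzero coefficient -/
theorem coeff_evL_ne_zero {F : Type} [Field F] {q : LZ F} {p : Polynomial F} (hp : p ≠ 0)
    {i₀ : ℤ} (hq : ∀ (T : Type) [CommRing T] [Algebra F T] (φ : LZ F →ₐ[F] T),
        φ q = (((Units.map (φ : LZ F →* T) (uu F)) ^ i₀ : Tˣ) : T) *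
          Polynomial.aeval ((Units.map (φ : LZ F →* T) (uu F) : Tˣ) : T) p)
    (E : (PowerSeries F)ˣ) (ε : F) (hE : PowerSeries.constantCoeff (E : PowerSeries F) = ε)
    (V : PowerSeries F) (hV : (E : PowerSeries F) - PowerSeries.C ε = PowerSeries.X * V)
    (hV0 : PowerSeries.constantCoeff V ≠ 0) :
    PowerSeries.coeff (Polynomial.rootMultiplicity ε p) (evL F E q) ≠ 0 := by
  obtain ⟨p₁, hp₁, hnd⟩ := Polynomial.exists_eq_pow_rootMultiplicity_mul_and_not_dvd p hp ε
  rw [Polynomial.dvd_iff_isRoot, Polynomial.IsRoot.def] at hnd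
  obtain ⟨α, hα⟩ : ∃ α, α = Polynomial.rootMultiplicity ε p := ⟨_, rfl⟩
  rw [← hα] at hp₁ ⊢
  have h1 : algebraMap F (PowerSeries F) ε = PowerSeries.C ε := rfl
  have h9 : Polynomial.aeval (E : PowerSeries F) p = (PowerSeries.X * V) ^ α *
      Polynomial.aeval (E : PowerSeries F) p₁ := by
    rw [hp₁, map_mul, map_pow, map_sub, Polynomial.aeval_X, Polynomial.aeval_C, h1, hV]
  rw [hq, evL_uu, h9]
  have h2 : ((E ^ i₀ : (PowerSeries F)ˣ) : PowerSeries F) * ((PowerSeries.X * V) ^ α *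
      Polynomial.aeval (E : PowerSeries F) p₁) = PowerSeries.X ^ α *
      (((E ^ i₀ : (PowerSeries F)ˣ) : PowerSeries F) * (V ^ α *
        Polynomial.aeval (E : PowerSeries F) p₁)) := by ring
  rw [h2]
  have h3 := PowerSeries.coeff_X_pow_mul (((E ^ i₀ : (PowerSeries F)ˣ) : PowerSeries F) * (V ^ α *
        Polynomial.aeval (E : PowerSeries F) p₁)) α 0
  rw [zero_add] at h3
  rw [h3, PowerSeries.coeff_zero_eq_constantCoeff_apply, map_mul, map_mul, map_pow]
  refine mul_ne_zero ?_ (mul_ne_zero (pow_ne_zero _ hV0) ?_)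
  · exact ((E ^ i₀).isUnit.map PowerSeries.constantCoeff).ne_zero
  · rw [Polynomial.aeval_def, Polynomial.hom_eval₂, hE]
    have h4 : (PowerSeries.constantCoeff (R := F)).comp (algebraMap F (PowerSeries F)) =
        RingHom.id F := by
      ext x
      have h5 : algebraMap F (PowerSeries F) x = PowerSeries.C x := rfl
      rw [RingHom.comp_apply, h5]
      simp
    rw [h4]
    exact hnd

/-- `c - 1 = X V` -/
theorem exists_V {F : Type} [Field F] [CharZero F] {k : ℕ} {C : (PowerSeries F)ˣ}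
    (hC : PowerSeries.constantCoeff (C : PowerSeries F) = 1)
    (h : om k C = PowerSeries.C (1 / 2 : F) * PowerSeries.X) :
    ∃ V : PowerSeries F, (C : PowerSeries F) - 1 = PowerSeries.X * V ∧
      PowerSeries.constantCoeff V ≠ 0 := by
  have h1 : PowerSeries.constantCoeff ((C : PowerSeries F) - 1) = 0 := by
    rw [map_sub, hC, map_one, sub_self]
  rw [← PowerSeries.X_dvd_iff] at h1
  obtain ⟨V, hV⟩ := h1
  refine ⟨V, hV, ?_⟩
  intro h0
  unfold om at h
  have h2 : (C : PowerSeries F) * ((C⁻¹ : (PowerSeries F)ˣ) : PowerSeries F) = 1 := by simp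
  have h3 : PowerSeries.X * (V * ((C : PowerSeries F) ^ (2 * k) * ((C : PowerSeries F) + 1))) =
      PowerSeries.X * (PowerSeries.C (1 / 2 : F) * (C : PowerSeries F)) := by
    have h4 : (C : PowerSeries F) ^ (2 * k) * ((C : PowerSeries F) ^ 2 - 1) =
        PowerSeries.C (1 / 2 : F) * PowerSeries.X * (C : PowerSeries F) := by
      rw [← h]
      linear_combination (-(C : PowerSeries F) ^ (2 * k)) * (-h2)
    linear_combination h4 - (C : PowerSeries F) ^ (2 * k) * ((C : PowerSeries F) + 1) * hV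
  have h5 := mul_left_cancel₀ PowerSeries.X_ne_zero h3
  have h6 := congrArg PowerSeries.constantCoeff h5
  rw [map_mul, h0, zero_mul, map_mul, hC] at h6
  simp at h6

end poly

section edges
variable {F : Type} [Field F] [CharZero F]

/-- the two edges, abstract form -/
theorem edges_aux {k : ℕ} {σ : ℝ} {c : (H1 F)ˣ}
    (hc : IsC k σ c) {g : AddMonoidAlgebra F (ℤ × ℕ)} (hg : GG k g ≠ 0) {P0 P1 : ℝ}
    (hP : ∀ i : ℤ, (GG k g).coeff i ≠ 0 → P0 ≤ i ∧ i ≤ P1)
    {S : Type} [CommRing S] [Algebra F S] (v : S →ₐ[F] H1 F) (hv : Function.Injective v)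
    (cu : Sˣ) (D W : S) (hcu : v (cu : S) = c) (hD : v D = D0 F σ) (hW : v W = W0 F σ)
    (e₁ e₂ : S →ₐ[F] PowerSeries F)
    (c₁ : ∀ (r : S) (n : ℕ), PowerSeries.coeff n (e₁ r) = cf1 (v r) (σ * n) (1 * n))
    (c₂ : ∀ (r : S) (n : ℕ), PowerSeries.coeff n (e₂ r) = cf1 (v r) ((1 - σ) * n) (-1 * n)) :
    ∃ α β : ℕ, (α : ℝ) + β ≤ P1 - P0 ∧ cf1 (bi c (D0 F σ) g) (σ * α) α ≠ 0 ∧
      cf1 (bi c (D0 F σ) g) ((1 - σ) * β) (-(β : ℤ)) ≠ 0 := by
  obtain ⟨p, i₀, hp, hdeg, hq⟩ := exists_poly hg hP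
  have hcu' : Units.map (v : S →* H1 F) cu = c := by
    ext1
    exact hcu
  have hom : om k cu = W := by
    apply hv
    rw [om_map, hcu', hc.om_eq, hW]
  have hbi : v (bi cu D g) = bi c (D0 F σ) g := by
    rw [bi_map, hcu', hD]
  have hc0 : cf1 (c : H1 F) 0 0 = 1 := by
    unfold cf1
    rw [hc.one]
    rw [AddMonoidAlgebra.one_def, AddMonoidAlgebra.coeff_single, Finsupp.single_apply, if_pos rfl]
  have w₁ : e₁ W = PowerSeries.C (1 / 2 : F) * PowerSeries.X := by
    ext n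
    rw [c₁, PowerSeries.coeff_C_mul, PowerSeries.coeff_X, hW]
    unfold W0
    rw [cf1_add, cf1_single, cf1_single]
    by_cases hn : n = 1
    · subst hn
      simp
    · rw [if_neg, if_neg, if_neg hn]
      · simp
      · rintro ⟨-, h⟩
        omega
      · rintro ⟨-, h⟩
        omega
  have d₁ : e₁ D = PowerSeries.C (1 / 2 : F) * PowerSeries.X := by
    ext n
    rw [c₁, PowerSeries.coeff_C_mul, PowerSeries.coeff_X, hD]
    unfold D0
    rw [cf1_sub, cf1_single, cf1_single]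
    by_cases hn : n = 1
    · subst hn
      simp
    · rw [if_neg, if_neg, if_neg hn]
      · simp
      · rintro ⟨-, h⟩
        omega
      · rintro ⟨-, h⟩
        omega
  have w₂ : e₂ W = PowerSeries.C (1 / 2 : F) * PowerSeries.X := by
    ext n
    rw [c₂, PowerSeries.coeff_C_mul, PowerSeries.coeff_X, hW]
    unfold W0
    rw [cf1_add, cf1_single, cf1_single]
    by_cases hn : n = 1
    · subst hn
      simp
    · rw [if_neg, if_neg, if_neg hn]
      · simp
      · rintro ⟨-, h⟩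
        omega
      · rintro ⟨-, h⟩
        omega
  have d₂ : e₂ D = -(PowerSeries.C (1 / 2 : F) * PowerSeries.X) := by
    ext n
    rw [c₂, map_neg, PowerSeries.coeff_C_mul, PowerSeries.coeff_X, hD]
    unfold D0
    rw [cf1_sub, cf1_single, cf1_single]
    by_cases hn : n = 1
    · subst hn
      simp
    · rw [if_neg, if_neg, if_neg hn]
      · simp
      · rintro ⟨-, h⟩
        omega
      · rintro ⟨-, h⟩
        omega
  obtain ⟨C₁, hC₁⟩ : ∃ C : (PowerSeries F)ˣ, C = Units.map (e₁ : S →* PowerSeries F) cu :=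
    ⟨_, rfl⟩
  obtain ⟨C₂, hC₂⟩ : ∃ C : (PowerSeries F)ˣ, C = Units.map (e₂ : S →* PowerSeries F) cu :=
    ⟨_, rfl⟩
  have o₁ : om k C₁ = PowerSeries.C (1 / 2 : F) * PowerSeries.X := by
    rw [hC₁, ← om_map, hom, w₁]
  have o₂ : om k C₂ = PowerSeries.C (1 / 2 : F) * PowerSeries.X := by
    rw [hC₂, ← om_map, hom, w₂]
  have k₁ : PowerSeries.constantCoeff (C₁ : PowerSeries F) = 1 := by
    rw [hC₁, ← PowerSeries.coeff_zero_eq_constantCoeff_apply]
    show PowerSeries.coeff 0 (e₁ cu) = 1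
    rw [c₁, hcu]
    simpa using hc0
  have k₂ : PowerSeries.constantCoeff (C₂ : PowerSeries F) = 1 := by
    rw [hC₂, ← PowerSeries.coeff_zero_eq_constantCoeff_apply]
    show PowerSeries.coeff 0 (e₂ cu) = 1
    rw [c₂, hcu]
    simpa using hc0
  obtain ⟨V₁, hV₁, hV₁0⟩ := exists_V k₁ o₁
  obtain ⟨V₂, hV₂, hV₂0⟩ := exists_V k₂ o₂
  refine ⟨Polynomial.rootMultiplicity 1 p, Polynomial.rootMultiplicity (-1) p, ?_, ?_, ?_⟩
  · refine le_trans ?_ hdeg
    exact_mod_cast mult_add_le p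
  · have h2 := coeff_evL_ne_zero hp hq C₁ 1 k₁ V₁ (by rw [← hV₁]; simp) hV₁0
    rw [← bi_om, o₁, ← d₁, hC₁, ← bi_map, c₁, one_mul, hbi] at h2
    exact h2
  · have h2 := coeff_evL_ne_zero hp hq (-C₂) (-1) (by rw [Units.val_neg, map_neg, k₂]) (-V₂)
      (by rw [Units.val_neg, mul_neg, ← hV₂]; simp; ring) (by rw [map_neg]; exact neg_ne_zero.2 hV₂0)
    rw [← bi_om_neg, o₂, ← d₂, hC₂, ← bi_map, c₂, neg_one_mul, hbi] at h2
    exact h2

/-- the two edges -/
theorem edges {k : ℕ} {σ : ℝ} (h0 : 0 < σ) (h1 : σ < 1) {c : (H1 F)ˣ}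
    (hc : IsC k σ c) {g : AddMonoidAlgebra F (ℤ × ℕ)} (hg : GG k g ≠ 0) {P0 P1 : ℝ}
    (hP : ∀ i : ℤ, (GG k g).coeff i ≠ 0 → P0 ≤ i ∧ i ≤ P1) :
    ∃ α β : ℕ, (α : ℝ) + β ≤ P1 - P0 ∧ cf1 (bi c (D0 F σ) g) (σ * α) α ≠ 0 ∧
      cf1 (bi c (D0 F σ) g) ((1 - σ) * β) (-(β : ℤ)) ≠ 0 := by
  have hs : 0 < 1 - σ := by linarith
  have one1 : (1 : ℤ) * 1 = 1 := by norm_num
  have one2 : (-1 : ℤ) * (-1) = 1 := by norm_num
  exact edges_aux hc hg hP (S := A0S F σ) (A0S F σ).val Subtype.val_injective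
    ⟨⟨c, hc.a0⟩, ⟨((c⁻¹ : (H1 F)ˣ) : H1 F), hc.a0'⟩, by ext1; simp, by ext1; simp⟩
    ⟨D0 F σ, a0_D0 σ⟩ ⟨W0 F σ, a0_W0 σ⟩ rfl rfl rfl
    (eps σ 1 one1 σ (fun r hr => hr.fc) h0) (eps σ (-1) one2 (1 - σ) (fun r hr => hr.fc') hs)
    (fun r n => by
      show PowerSeries.coeff n (PowerSeries.mk fun k => cf1 (r : H1 F) (σ * k) (1 * k)) = _
      rw [PowerSeries.coeff_mk]
      rfl)
    (fun r n => by
      show PowerSeries.coeff n (PowerSeries.mk fun k => cf1 (r : H1 F) ((1 - σ) * k) (-1 * k)) = _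
      rw [PowerSeries.coeff_mk]
      rfl)

end edges

end Pool.Agent.TH159.IA
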