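import Mathlib

/-! Emptiness of systems with multiple points in several variables: definitions.

`LP K P` : Laurent polynomials in one variable `X` whose coefficients are polynomials in spectator
variables with exponents in the monoid `P`.  A point is a `K`-algebra homomorphism `LP K P → K`,
and multiplicity at least `w` at it is membership in the `w`-th power of the kernel. -/

set_option autoImplicit false

namespace Pool.Agent.TH396.IN

/-- Laurent polynomials in one variable and polynomials in spectators with exponents in `P` -/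
abbrev LP (K : Type) [Semiring K] (P : Type) [AddCommMonoid P] : Type :=
  AddMonoidAlgebra K (ℤ × P)

/-- the exponents `(a, c)` with `p + α deg c ≤ a ≤ q - β deg c` -/
def Rg {P : Type} (dg : P → ℕ) (α β p q : ℝ) : Set (ℤ × P) :=
  {m | p + α * dg m.2 ≤ m.1 ∧ (m.1 : ℝ) ≤ q - β * dg m.2}

/-- the exponents of the leading coefficients on a tube: `(l, (e, c))` with
`-σ L ≤ l ≤ (1 - σ) L`, `L = L₀ - a e - b deg c` -/
def Tb {P : Type} (dg : P → ℕ) (σ L₀ a b : ℝ) : Set (ℤ × (ℕ × P)) :=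
  {m | -(σ * (L₀ - a * m.2.1 - b * dg m.2.2)) ≤ m.1 ∧
    (m.1 : ℝ) ≤ (1 - σ) * (L₀ - a * m.2.1 - b * dg m.2.2)}

/-- the degree on `ℕ × P` -/
def dgS {P : Type} (dg : P → ℕ) (m : ℕ × P) : ℕ := m.1 + dg m.2

/-- `f` has multiplicity at least `w i` at the `i`-th point -/
def Mult {K : Type} [Field K] {P : Type} [AddCommMonoid P] {ι : Type}
    (e : ι → (LP K P →ₐ[K] K)) (w : ι → ℕ) (f : LP K P) : Prop :=
  ∀ i, f ∈ RingHom.ker (e i) ^ w i

/-- for every bound `B` there are points over a field of characteristic zero such that for all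
`p`, `q` with `q - p ≤ B` and all multiplicities with `(q - p) c < ∑ w i` no nonzero `f` with
exponents in `Rg dg α β p q` has the multiplicities `w i` -/
def Good (ι : Type) [Fintype ι] {P : Type} [AddCommMonoid P] (dg : P → ℕ) (α β c : ℝ) : Prop :=
  ∀ B : ℝ, ∃ (K : Type) (_ : Field K) (_ : CharZero K) (e : ι → (LP K P →ₐ[K] K)),
    ∀ (p q : ℝ) (w : ι → ℕ), q - p ≤ B → (q - p) * c < ∑ i, (w i : ℝ) →
      ∀ f : LP K P, (∀ m, f.coeff m ≠ 0 → m ∈ Rg dg α β p q) → Mult e w f → f = 0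

/-- the same for the regions `Tb` -/
def GoodT (ι : Type) [Fintype ι] {P : Type} [AddCommMonoid P] (dg : P → ℕ) (σ a b c : ℝ) : Prop :=
  ∀ B : ℝ, ∃ (K : Type) (_ : Field K) (_ : CharZero K) (e : ι → (LP K (ℕ × P) →ₐ[K] K)),
    ∀ (L₀ : ℝ) (w : ι → ℕ), L₀ ≤ B → L₀ * c < ∑ i, (w i : ℝ) →
      ∀ f : LP K (ℕ × P), (∀ m, f.coeff m ≠ 0 → m ∈ Tb dg σ L₀ a b) → Mult e w f → f = 0

/-- the exponents of the polynomials of degree at most `d` -/
def Sx {P : Type} (dg : P → ℕ) (d : ℕ) : Set (ℤ × (ℕ × P)) :=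
  {m | 0 ≤ m.1 ∧ m.1 + m.2.1 + dg m.2.2 ≤ d}

/-- the statement for polynomials of degree at most `d` -/
def GoodS (ι : Type) [Fintype ι] {P : Type} [AddCommMonoid P] (dg : P → ℕ) (c : ℝ) : Prop :=
  ∀ B : ℕ, ∃ (K : Type) (_ : Field K) (_ : CharZero K) (e : ι → (LP K (ℕ × P) →ₐ[K] K)),
    ∀ (d : ℕ) (w : ι → ℕ), d ≤ B → (d : ℝ) * c < ∑ i, (w i : ℝ) →
      ∀ f : LP K (ℕ × P), (∀ m, f.coeff m ≠ 0 → m ∈ Sx dg d) → Mult e w f → f = 0

/-- the spectators: `k` natural numbers -/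
def Sp : ℕ → Type
  | 0 => Unit
  | k + 1 => ℕ × Sp k

instance instSp : (k : ℕ) → AddCommMonoid (Sp k)
  | 0 => inferInstanceAs (AddCommMonoid Unit)
  | k + 1 => by
    haveI := instSp k
    exact inferInstanceAs (AddCommMonoid (ℕ × Sp k))

/-- the total degree of the spectators -/
def dgp : (k : ℕ) → Sp k → ℕ
  | 0 => fun _ => 0
  | k + 1 => fun m => m.1 + dgp k m.2

end Pool.Agent.TH396.IN
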