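import Pool.Agent.TH159.IA.Key2
import Pool.Agent.TH396.IN.Ind
import Pool.Agent.TH380.PN.E1
import Pool.Agent.TH380.PN.E2
import Pool.Agent.TH380.PN.E3

/-! Very general points of projective space of dimension `k + 2`, from the key lemma for the
plane. -/

set_option autoImplicit false

namespace Pool.Agent.TH396.IN

/-- unequal multiplicities: `∑ m_j ≤ d r ^ (1 - 1 / N)`, `N = k + 2` -/
theorem main_of (r k : ℕ) (h3 : Key3 (Fin r)) (hr : 3 ^ (k + 2) ≤ r) :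
    ∃ F : ℕ → MvPolynomial (Fin r × Fin (k + 2 + 1)) ℂ, (∀ i, F i ≠ 0) ∧
      ∀ P : Fin r → Fin (k + 2 + 1) → ℂ,
        (∀ i, MvPolynomial.eval (fun q : Fin r × Fin (k + 2 + 1) => P q.1 q.2) (F i) ≠ 0) →
        ∀ (m : Fin r → ℕ) (d : ℕ) (f : MvPolynomial (Fin (k + 2 + 1)) ℂ),
          f.IsHomogeneous d → f ≠ 0 →
          (∀ j : Fin r, f ∈ (RingHom.ker (MvPolynomial.eval (P j))) ^ m j) →
          (∑ j, (m j : ℝ)) * (r : ℝ) ^ ((1 : ℝ) / ((k + 2 : ℕ) : ℝ)) ≤ d * r := by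
  obtain ⟨R, hR⟩ : ∃ R : ℝ, R = (r : ℝ) ^ ((1 : ℝ) / ((k + 2 : ℕ) : ℝ)) := ⟨_, rfl⟩
  have hr0 : (0 : ℝ) ≤ r := Nat.cast_nonneg r
  have hR0 : 0 ≤ R := by rw [hR]; exact Real.rpow_nonneg hr0 _
  have hRr : R ^ (k + 2) = r := by
    rw [hR, one_div, Real.rpow_inv_natCast_pow hr0 (by omega)]
  have hR3 : 3 ≤ R := by
    by_contra hlt
    push Not at hlt
    have h1 : R ^ (k + 2) < 3 ^ (k + 2) := pow_lt_pow_left₀ hlt hR0 (by omega)
    rw [hRr] at h1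
    have h2 : ((3 ^ (k + 2) : ℕ) : ℝ) ≤ r := by exact_mod_cast hr
    push_cast at h2
    linarith
  have hRp : 0 < R := by linarith
  have hG : GoodS (Fin r) (dgp k) (R⁻¹⁻¹ ^ (k + 1)) := by
    refine good_space_of (Pool.Agent.TH159.IA.key2 (Fin r)) h3 (inv_pos.2 hRp) ?_ k ?_
    · rw [one_div]
      exact inv_anti₀ (by norm_num) hR3
    · rw [Fintype.card_fin, inv_pow, hRr]
      have : (r : ℝ) ≠ 0 := by
        rw [← hRr]
        positivity
      exact mul_inv_cancel₀ this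
  rw [inv_inv] at hG
  obtain ⟨F, hF, hP⟩ := Pool.Agent.TH380.PN.veryGeneral
    Pool.Agent.TH380.PN.generic_of_config (k + 1) r (R ^ (k + 1))
    (Pool.Agent.TH380.PN.points_of_good r k (R ^ (k + 1)) hG)
  refine ⟨F, hF, ?_⟩
  intro P hPF m d f hfd hf0 hfm
  have h1 := hP P hPF m d f hfd hf0 hfm
  rw [← hR]
  have h2 : R ^ (k + 1) * R = r := by rw [← pow_succ, hRr]
  calc (∑ j, (m j : ℝ)) * R ≤ d * R ^ (k + 1) * R := mul_le_mul_of_nonneg_right h1 hR0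
    _ = d * r := by rw [mul_assoc, h2]

end Pool.Agent.TH396.IN
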