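import Pool.Agent.TH396.IN.Defs
import Pool.Agent.TH176.Nag.Flat

/-! Projection: all points on `Y = X ^ v`. -/

set_option autoImplicit false

namespace Pool.Agent.TH396.IN

section tj
variable {B : Type} [CommRing B]

/-- the power series whose `k`-th coefficient lies in `J ^ (w - k)` -/
def TJ (J : Ideal B) (w : ℕ) : Ideal (PowerSeries B) where
  carrier := {x | ∀ k, PowerSeries.coeff k x ∈ J ^ (w - k)}
  add_mem' {x y} hx hy k := by
    rw [map_add]
    exact (J ^ (w - k)).add_mem (hx k) (hy k)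
  zero_mem' k := by
    rw [map_zero]
    exact (J ^ (w - k)).zero_mem
  smul_mem' c x hx k := by
    rw [smul_eq_mul, PowerSeries.coeff_mul]
    refine Ideal.sum_mem _ fun ij hij => ?_
    rw [Finset.HasAntidiagonal.mem_antidiagonal] at hij
    apply Ideal.mul_mem_left
    exact Ideal.pow_le_pow_right (by omega) (hx ij.2)

theorem mem_TJ {J : Ideal B} {w : ℕ} {x : PowerSeries B} :
    x ∈ TJ J w ↔ ∀ k, PowerSeries.coeff k x ∈ J ^ (w - k) := Iff.rfl

theorem TJ_mul_le (J : Ideal B) (a b : ℕ) : TJ J a * TJ J b ≤ TJ J (a + b) := by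
  rw [Ideal.mul_le]
  intro x hx y hy k
  rw [PowerSeries.coeff_mul]
  refine Ideal.sum_mem _ fun ij hij => ?_
  rw [Finset.HasAntidiagonal.mem_antidiagonal] at hij
  have h1 := Ideal.mul_mem_mul (hx ij.1) (hy ij.2)
  rw [← pow_add] at h1
  exact Ideal.pow_le_pow_right (by omega) h1

theorem TJ_pow_le (J : Ideal B) (w : ℕ) : TJ J 1 ^ w ≤ TJ J w := by
  induction w with
  | zero => intro x _ k; simp
  | succ w ih =>
    rw [pow_succ]
    exact (Ideal.mul_mono_left ih).trans (TJ_mul_le J w 1)

end tj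

section proj
variable {P K : Type} [AddCommMonoid P] [Field K]

/-- the projection of the exponents along `(-v, 1)` -/
def pz (v : ℤ) : ℤ × (ℕ × P) →+ ℤ × P where
  toFun m := (m.1 + v * m.2.1, m.2.2)
  map_zero' := by simp
  map_add' m m' := by
    ext
    · simp only [Prod.fst_add, Prod.snd_add, Nat.cast_add]; ring
    · rfl

theorem pz_apply (v : ℤ) (m : ℤ × (ℕ × P)) : pz v m = (m.1 + v * m.2.1, m.2.2) := rfl

/-- the Taylor map on monomials -/
noncomputable def tayM (K : Type) [Field K] (v : ℤ) :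
    Multiplicative (ℤ × (ℕ × P)) →* PowerSeries (LP K P) where
  toFun m := PowerSeries.C (AddMonoidAlgebra.single (pz v m.toAdd) 1) *
    (1 + PowerSeries.X) ^ m.toAdd.2.1
  map_one' := by
    simp only [toAdd_one, map_zero, Prod.snd_zero, Prod.fst_zero, pow_zero, mul_one]
    rw [← AddMonoidAlgebra.one_def, map_one]
  map_mul' m m' := by
    simp only [toAdd_mul, map_add, Prod.snd_add, Prod.fst_add, pow_add]
    rw [← one_mul (1 : K), ← AddMonoidAlgebra.single_mul_single, map_mul]
    simp only [one_mul]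
    ring

/-- the Taylor map -/
noncomputable def tay (v : ℤ) : LP K (ℕ × P) →ₐ[K] PowerSeries (LP K P) :=
  AddMonoidAlgebra.lift K (PowerSeries (LP K P)) (ℤ × (ℕ × P)) (tayM K v)

theorem coeff_one_add_X_pow {R : Type} [CommRing R] (n k : ℕ) :
    PowerSeries.coeff k ((1 + PowerSeries.X : PowerSeries R) ^ n) = (n.choose k : R) := by
  have h : ((1 + PowerSeries.X : PowerSeries R) ^ n) =
      (((1 + Polynomial.X : Polynomial R) ^ n : Polynomial R) : PowerSeries R) := by
    simp
  rw [h, Polynomial.coeff_coe, Polynomial.coeff_one_add_X_pow]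

theorem tay_single (v : ℤ) (m : ℤ × (ℕ × P)) (c : K) (k : ℕ) :
    PowerSeries.coeff k (tay v (AddMonoidAlgebra.single m c)) =
      AddMonoidAlgebra.single (pz v m) (c * (m.2.1.choose k : K)) := by
  unfold tay
  rw [AddMonoidAlgebra.lift_single]
  show PowerSeries.coeff k (c • (PowerSeries.C (AddMonoidAlgebra.single (pz v m) (1 : K)) *
    (1 + PowerSeries.X) ^ m.2.1)) = _
  rw [PowerSeries.coeff_smul, PowerSeries.coeff_C_mul, coeff_one_add_X_pow]
  have h : ((m.2.1.choose k : ℕ) : LP K P) = AddMonoidAlgebra.single 0 ((m.2.1.choose k : ℕ) : K) := rfl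
  rw [h, AddMonoidAlgebra.single_mul_single, AddMonoidAlgebra.smul_single, add_zero, one_mul,
    smul_eq_mul]

theorem coeff_tay (v : ℤ) (f : LP K (ℕ × P)) (k : ℕ) :
    PowerSeries.coeff k (tay v f) =
      f.coeff.sum fun x c => AddMonoidAlgebra.single (pz v x) (c * (x.2.1.choose k : K)) := by
  classical
  induction f using AddMonoidAlgebra.induction_linear with
  | zero => simp
  | add f g hf hg =>
    rw [map_add, map_add, hf, hg, AddMonoidAlgebra.coeff_add, Finsupp.sum_add_index']
    · intro a; simp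
    · intro a b c; rw [add_mul, AddMonoidAlgebra.single_add]
  | single m c =>
    rw [tay_single, AddMonoidAlgebra.coeff_single, Finsupp.sum_single_index]
    simp

open Classical in
/-- the fibre over `m` -/
noncomputable def fbr (v : ℤ) (f : LP K (ℕ × P)) (m : ℤ × P) : Finset ℕ :=
  (f.coeff.support.filter (fun x => pz v x = m)).image (fun x => x.2.1)

theorem mem_fbr {v : ℤ} {f : LP K (ℕ × P)} {m : ℤ × P} {n : ℕ} :
    n ∈ fbr v f m ↔ f.coeff (m.1 - v * n, (n, m.2)) ≠ 0 := by
  classical
  unfold fbr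
  rw [Finset.mem_image]
  constructor
  · rintro ⟨x, hx, rfl⟩
    rw [Finset.mem_filter, Finsupp.mem_support_iff] at hx
    have h2 : (m.1 - v * x.2.1, (x.2.1, m.2)) = x := by
      rw [← hx.2, pz_apply]
      ext
      · simp
      · rfl
      · rfl
    rw [h2]
    exact hx.1
  · intro h
    refine ⟨(m.1 - v * n, (n, m.2)), ?_, rfl⟩
    rw [Finset.mem_filter, Finsupp.mem_support_iff]
    refine ⟨h, ?_⟩
    rw [pz_apply]
    ext
    · simp
    · rfl

theorem coeff_coeff_tay (v : ℤ) (f : LP K (ℕ × P)) (k : ℕ) (m : ℤ × P) :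
    (PowerSeries.coeff k (tay v f)).coeff m =
      ∑ n ∈ fbr v f m, (n.choose k : K) * f.coeff (m.1 - v * n, (n, m.2)) := by
  classical
  rw [coeff_tay, Finsupp.sum, AddMonoidAlgebra.coeff_sum, Finsupp.finsetSum_apply]
  have h1 : ∀ x ∈ f.coeff.support, (AddMonoidAlgebra.single (pz v x)
      (f.coeff x * (x.2.1.choose k : K))).coeff m =
      if pz v x = m then f.coeff x * (x.2.1.choose k : K) else 0 := by
    intro x _
    rw [AddMonoidAlgebra.coeff_single, Finsupp.single_apply]
  rw [Finset.sum_congr rfl h1, ← Finset.sum_filter]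
  unfold fbr
  have h3 : ∀ x ∈ f.coeff.support.filter (fun x => pz v x = m),
      (m.1 - v * x.2.1, (x.2.1, m.2)) = x := by
    intro x hx
    rw [Finset.mem_filter] at hx
    rw [← hx.2, pz_apply]
    ext
    · simp
    · rfl
    · rfl
  rw [Finset.sum_image]
  · apply Finset.sum_congr rfl
    intro x hx
    rw [h3 x hx, mul_comm]
  · intro x hx y hy hxy
    simp only at hxy
    rw [← h3 x hx, ← h3 y hy, hxy]

theorem constCoeff_tay (v : ℤ) (f : LP K (ℕ × P)) :
    PowerSeries.coeff 0 (tay v f) = AddMonoidAlgebra.mapDomainAlgHom K K (pz v) f := by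
  rw [coeff_tay]
  show _ = AddMonoidAlgebra.mapDomain (pz v) f
  rw [AddMonoidAlgebra.mapDomain, Finsupp.mapDomain, AddMonoidAlgebra.ofCoeff_finsuppSum]
  apply Finsupp.sum_congr
  intro x _
  simp [AddMonoidAlgebra.ofCoeff_single]

end proj

theorem proj {ι P K : Type} [AddCommMonoid P] [Field K] [CharZero K] (v : ℤ)
    (e : ι → (LP K P →ₐ[K] K)) : ∃ e' : ι → (LP K (ℕ × P) →ₐ[K] K),
    ∀ (w : ι → ℕ) (f : LP K (ℕ × P)), f ≠ 0 → Mult e' w f →
      ∃ (c : ℕ) (f' : LP K P), f' ≠ 0 ∧ Mult e (fun i => w i - c) f' ∧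
        ∀ m, f'.coeff m ≠ 0 → ∃ n₀ n₁ : ℕ, n₀ + c ≤ n₁ ∧
          f.coeff (m.1 - v * n₀, (n₀, m.2)) ≠ 0 ∧ f.coeff (m.1 - v * n₁, (n₁, m.2)) ≠ 0 := by
  classical
  refine ⟨fun i => (e i).comp (AddMonoidAlgebra.mapDomainAlgHom K K (pz v)), ?_⟩
  intro w f hf hw
  -- some coefficient of the Taylor expansion is nonzero
  have hex : ∃ k, PowerSeries.coeff k (tay v f) ≠ 0 := by
    by_contra hcon
    push Not at hcon
    apply hf
    rw [← AddMonoidAlgebra.coeff_eq_zero]
    ext x
    by_contra hx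
    have h1 := Pool.Agent.TH176.Nag.vand (F := K) (B := fbr v f (pz v x))
      (v := fun n => f.coeff ((pz v x).1 - v * n, (n, (pz v x).2))) (by
        intro l _
        rw [← coeff_coeff_tay, hcon l]
        rfl)
    have h2 : (x.2.1) ∈ fbr v f (pz v x) := by
      rw [mem_fbr]
      have h3 : ((pz v x).1 - v * x.2.1, (x.2.1, (pz v x).2)) = x := by
        rw [pz_apply]
        ext
        · simp
        · rfl
        · rfl
      rw [h3]
      exact hx
    exact (mem_fbr.1 h2) (h1 _ h2)
  let c := Nat.find hex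
  have hc : PowerSeries.coeff c (tay v f) ≠ 0 := Nat.find_spec hex
  have hlt : ∀ k < c, PowerSeries.coeff k (tay v f) = 0 := fun k hk => by
    by_contra h
    exact Nat.find_min hex hk h
  refine ⟨c, PowerSeries.coeff c (tay v f), hc, fun i => ?_, fun m hm => ?_⟩
  · have h1 : RingHom.ker ((e i).comp (AddMonoidAlgebra.mapDomainAlgHom K K (pz (P := P) v))) ≤
        (TJ (RingHom.ker (e i)) 1).comap (tay v) := by
      intro g hg
      rw [Ideal.mem_comap, mem_TJ]
      intro k
      rcases Nat.eq_zero_or_pos k with rfl | hk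
      · rw [constCoeff_tay, Nat.sub_zero, pow_one]
        exact hg
      · rw [Nat.sub_eq_zero_of_le hk, pow_zero, Ideal.one_eq_top]
        exact Submodule.mem_top
    have h2 := Ideal.pow_right_mono h1 (w i) (hw i)
    have h3 := Ideal.le_comap_pow (tay v) (w i) h2
    rw [Ideal.mem_comap] at h3
    exact TJ_pow_le _ _ h3 c
  · have hcard : c < (fbr v f m).card := by
      by_contra hcon
      apply hm
      rw [coeff_coeff_tay]
      have h1 := Pool.Agent.TH176.Nag.vand (F := K) (B := fbr v f m)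
        (v := fun n => f.coeff (m.1 - v * n, (n, m.2))) (by
          intro l hl
          rw [← coeff_coeff_tay, hlt l (by omega)]
          rfl)
      exact Finset.sum_eq_zero fun n hn => by rw [h1 n hn, mul_zero]
    have hne : (fbr v f m).Nonempty := Finset.card_pos.1 (by omega)
    refine ⟨(fbr v f m).min' hne, (fbr v f m).max' hne, ?_, mem_fbr.1 (Finset.min'_mem _ _),
      mem_fbr.1 (Finset.max'_mem _ _)⟩
    have h2 : fbr v f m ⊆ Finset.Icc ((fbr v f m).min' hne) ((fbr v f m).max' hne) := by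
      intro n hn
      rw [Finset.mem_Icc]
      exact ⟨Finset.min'_le _ _ hn, Finset.le_max' _ _ hn⟩
    have h3 := Finset.card_le_card h2
    rw [Nat.card_Icc] at h3
    omega

end Pool.Agent.TH396.IN
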