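import Pool.Agent.TH396.IN.Proj

/-! From the projected regions to the regions of the tube. -/

set_option autoImplicit false

namespace Pool.Agent.TH396.IN

theorem sum_sub_ge {ι : Type} [Fintype ι] (w : ι → ℕ) (j : ℕ) :
    ∑ i, (w i : ℝ) - Fintype.card ι * j ≤ ∑ i, ((w i - j : ℕ) : ℝ) := by
  have h : ∑ i, ((w i : ℝ) - j) ≤ ∑ i, ((w i - j : ℕ) : ℝ) := by
    apply Finset.sum_le_sum
    intro i _
    rcases le_total j (w i) with h | h
    · rw [Nat.cast_sub h]
    · rw [Nat.sub_eq_zero_of_le h, Nat.cast_zero, sub_nonpos]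
      exact_mod_cast h
  rw [Finset.sum_sub_distrib, Finset.sum_const, Finset.card_univ, nsmul_eq_mul] at h
  exact h

theorem goodT_of_good {ι : Type} [Fintype ι] {P : Type} [AddCommMonoid P] {dg : P → ℕ}
    {σ a b c : ℝ} {v : ℤ} (_hσ : 0 ≤ σ) (ha : 0 < a) (_hb : 0 ≤ b) (_hc : 0 ≤ c)
    (hW : a ≤ v + a * σ) (hs : c * (v + a * σ) ^ 2 = Fintype.card ι * a)
    (h : Good ι dg (σ * b) (v * b / a) c) : GoodT ι dg σ a b ((v + a * σ) * c / a) := by
  obtain ⟨W, hWdef⟩ : ∃ W : ℝ, W = v + a * σ := ⟨_, rfl⟩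
  rw [← hWdef] at hW hs ⊢
  have hW0 : 0 < W := lt_of_lt_of_le ha hW
  intro B
  obtain ⟨K, _, _, e, he⟩ := h (W / a * B)
  obtain ⟨e', he'⟩ := proj v e
  refine ⟨K, inferInstance, inferInstance, e', ?_⟩
  intro L₀ w hL hw f hf hm
  by_contra hne
  obtain ⟨j, f', hf0, hfm, hfs⟩ := he' w f hne hm
  apply hf0
  have hj : (0 : ℝ) ≤ j := Nat.cast_nonneg j
  have hqp : (v * L₀ - (W - a) * W * j) / a - (-(σ * L₀) + W * j) = W / a * (L₀ - W * j) := by
    have hv : (v : ℝ) = W - a * σ := by rw [hWdef]; ring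
    rw [hv]
    field_simp
    ring
  refine he (-(σ * L₀) + W * j) ((v * L₀ - (W - a) * W * j) / a) (fun i => w i - j) ?_ ?_ f' ?_ hfm
  · rw [hqp]
    apply mul_le_mul_of_nonneg_left _ (by positivity)
    have : 0 ≤ W * j := by positivity
    linarith
  · rw [hqp]
    have h1 := sum_sub_ge w j
    have h2 : W / a * (L₀ - W * j) * c = L₀ * (W * c / a) - Fintype.card ι * j := by
      have : (Fintype.card ι : ℝ) * j = c * W ^ 2 / a * j := by rw [hs]; field_simp
      rw [this]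
      field_simp
    rw [h2]
    linarith
  · intro m hmm
    obtain ⟨n₀, n₁, hn, h0, h1⟩ := hfs m hmm
    obtain ⟨-, h3⟩ := hf _ h0
    obtain ⟨h4, -⟩ := hf _ h1
    simp only at h3 h4
    push_cast at h3 h4
    have hn' : (n₀ : ℝ) + j ≤ n₁ := by exact_mod_cast hn
    obtain ⟨g, hg⟩ : ∃ g : ℝ, g = dg m.2 := ⟨_, rfl⟩
    rw [← hg] at h3 h4
    obtain ⟨l, hl⟩ : ∃ l : ℝ, l = m.1 := ⟨_, rfl⟩
    rw [← hl] at h3 h4
    have hv : (v : ℝ) = W - a * σ := by rw [hWdef]; ring
    -- the two basic inequalities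
    have h5 : l ≤ (1 - σ) * (L₀ - b * g) + (W - a) * n₀ := by
      rw [hv] at h3
      have e1 : (1 - σ) * (L₀ - a * n₀ - b * g) + (W - a * σ) * n₀ =
        (1 - σ) * (L₀ - b * g) + (W - a) * n₀ := by ring
      linarith
    have h6 : -(σ * (L₀ - b * g)) + W * n₁ ≤ l := by
      rw [hv] at h4
      have e1 : -(σ * (L₀ - a * n₁ - b * g)) + (W - a * σ) * n₁ =
        -(σ * (L₀ - b * g)) + W * n₁ := by ring
      linarith
    have h7 : W * (n₀ + j) ≤ W * n₁ := mul_le_mul_of_nonneg_left hn' hW0.le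
    have hn0 : (0 : ℝ) ≤ n₀ := Nat.cast_nonneg n₀
    constructor
    · rw [← hg, ← hl]
      have h8 : 0 ≤ W * n₀ := by positivity
      have e1 : -(σ * L₀) + W * j + σ * b * g = -(σ * (L₀ - b * g)) + W * j := by ring
      rw [e1]
      linarith
    · rw [← hg, ← hl]
      have e1 : (v * L₀ - (W - a) * W * j) / a - v * b / a * g =
        (v * (L₀ - b * g) - (W - a) * W * j) / a := by ring
      rw [e1, le_div_iff₀ ha, hv]
      have h8 := mul_le_mul_of_nonneg_left h5 hW0.le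
      have h9 : (W - a) * (W * n₀) ≤ (W - a) * (l + σ * (L₀ - b * g) - W * j) := by
        apply mul_le_mul_of_nonneg_left _ (by linarith)
        linarith
      linarith

end Pool.Agent.TH396.IN
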